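import Mathlib
import Pool.Agent.Run7.h817.Han.Cx

/-!
# Long exact sequences (as vanishing statements) for `Hv`
-/

set_option autoImplicit false

open scoped TensorProduct

namespace Run7.h975.Han

open Run7.h817.Han

variable {k A : Type} [Field k] [Ring A] [Algebra k A]

section nat

variable {X Y : Type} [AddCommGroup X] [Module k X] [AddCommGroup Y] [Module k Y]

/-- intertwining maps commute with `d0` -/
theorem d0_map {β : BiAct k A X} {γ : BiAct k A Y} (f : X →ₗ[k] Y)
    (hl : ∀ a x, f (β.l a x) = γ.l a (f x)) (hr : ∀ a x, f (β.r a x) = γ.r a (f x))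
    (z : X ⊗[k] A) : f (d0 β z) = d0 γ (f.rTensor A z) := by
  induction z with
  | zero => simp
  | tmul x a => simp [hl, hr]
  | add x y hx hy => rw [map_add, map_add, hx, hy, map_add, map_add]

theorem tw_l_map {β : BiAct k A X} {γ : BiAct k A Y} (f : X →ₗ[k] Y)
    (hl : ∀ a x, f (β.l a x) = γ.l a (f x))
    (a : A) (z : X ⊗[k] A) : f.rTensor A ((tw β).l a z) = (tw γ).l a (f.rTensor A z) := by
  induction z with
  | zero => simp
  | tmul x c => simp [hl]
  | add x y hx hy => rw [map_add, map_add, hx, hy, map_add, map_add]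

theorem tw_r_map {β : BiAct k A X} {γ : BiAct k A Y} (f : X →ₗ[k] Y)
    (hr : ∀ a x, f (β.r a x) = γ.r a (f x))
    (a : A) (z : X ⊗[k] A) : f.rTensor A ((tw β).r a z) = (tw γ).r a (f.rTensor A z) := by
  induction z with
  | zero => simp
  | tmul x c => simp [hr]
  | add x y hx hy => rw [map_add, map_add, hx, hy, map_add, map_add]

/-- invariance under isomorphism of bimodules -/
theorem Hv_congr (n : ℕ) : ∀ {X Y : Type} [AddCommGroup X] [Module k X] [AddCommGroup Y]
    [Module k Y] (β : BiAct k A X) (γ : BiAct k A Y) (e : X ≃ₗ[k] Y)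
    (_ : ∀ a x, e (β.l a x) = γ.l a (e x)) (_ : ∀ a x, e (β.r a x) = γ.r a (e x)),
    Hv n β → Hv n γ := by
  induction n using Nat.strong_induction_on with
  | _ n ih =>
    match n with
    | 0 =>
      intro X Y _ _ _ _ β γ e hl hr h y
      obtain ⟨z, hz⟩ := h (e.symm y)
      refine ⟨(e : X →ₗ[k] Y).rTensor A z, ?_⟩
      rw [← d0_map (β := β) (γ := γ) (e : X →ₗ[k] Y) (fun a x => hl a x) (fun a x => hr a x), hz]
      simp
    | 1 =>
      intro X Y _ _ _ _ β γ e hl hr h y hy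
      obtain ⟨y, rfl⟩ := (LinearEquiv.rTensor A e).surjective y
      have h1 : d0 β y = 0 := by
        apply e.injective
        rw [map_zero, ← hy]
        exact d0_map (β := β) (γ := γ) (e : X →ₗ[k] Y) (fun a x => hl a x) (fun a x => hr a x) y
      obtain ⟨t, ht⟩ := h y h1
      refine ⟨((e : X →ₗ[k] Y).rTensor A).rTensor A t, ?_⟩
      rw [← d0_map (β := tw β) (γ := tw γ) ((e : X →ₗ[k] Y).rTensor A)
        (tw_l_map _ (fun a x => hl a x)) (tw_r_map _ (fun a x => hr a x)), ht]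
      rfl
    | n + 2 =>
      intro X Y _ _ _ _ β γ e hl hr h
      exact ih (n + 1) (by omega) (tw β) (tw γ) (LinearEquiv.rTensor A e)
        (fun a x => tw_l_map (β := β) (γ := γ) (e : X →ₗ[k] Y) (fun a x => hl a x) a x)
        (fun a x => tw_r_map (β := β) (γ := γ) (e : X →ₗ[k] Y) (fun a x => hr a x) a x) h

end nat

section ses

variable {X' X X'' : Type} [AddCommGroup X'] [Module k X'] [AddCommGroup X] [Module k X]
    [AddCommGroup X''] [Module k X''] {β' : BiAct k A X'} {β : BiAct k A X} {β'' : BiAct k A X''}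
    {i : X' →ₗ[k] X} {p : X →ₗ[k] X''}

theorem _root_.Run7.h817.Han.SES.tw (h : SES β' β β'' i p) :
    SES (Run7.h817.Han.tw β') (Run7.h817.Han.tw β) (Run7.h817.Han.tw β'')
      (i.rTensor A) (p.rTensor A) where
  inj := Module.Flat.rTensor_preserves_injective_linearMap i h.inj
  surj := LinearMap.rTensor_surjective A h.surj
  exact := by
    have he : Function.Exact i p := fun x => by
      rw [h.exact]; rfl
    intro z
    exact (rTensor_exact A he h.surj) z
  i_l := fun a x => tw_l_map i h.i_l a x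
  i_r := fun a x => tw_r_map i h.i_r a x
  p_l := fun a x => tw_l_map p h.p_l a x
  p_r := fun a x => tw_r_map p h.p_r a x

theorem _root_.Run7.h817.Han.SES.d0_i (h : SES β' β β'' i p) (z : X' ⊗[k] A) :
    i (d0 β' z) = d0 β (i.rTensor A z) := d0_map i h.i_l h.i_r z

theorem _root_.Run7.h817.Han.SES.d0_p (h : SES β' β β'' i p) (z : X ⊗[k] A) :
    p (d0 β z) = d0 β'' (p.rTensor A z) := d0_map p h.p_l h.p_r z

theorem _root_.Run7.h817.Han.SES.p_i (h : SES β' β β'' i p) (x : X') : p (i x) = 0 := (h.exact _).2 ⟨x, rfl⟩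

end ses

/-- middle term -/
theorem L1 (n : ℕ) : ∀ {X' X X'' : Type} [AddCommGroup X'] [Module k X'] [AddCommGroup X]
    [Module k X] [AddCommGroup X''] [Module k X''] {β' : BiAct k A X'} {β : BiAct k A X}
    {β'' : BiAct k A X''} {i : X' →ₗ[k] X} {p : X →ₗ[k] X''} (_ : SES β' β β'' i p),
    Hv n β' → Hv n β'' → Hv n β := by
  induction n using Nat.strong_induction_on with
  | _ n ih =>
    match n with
    | 0 =>
      intro X' X X'' _ _ _ _ _ _ β' β β'' i p h h1 h2 x
      obtain ⟨z'', hz''⟩ := h2 (p x)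
      obtain ⟨z, rfl⟩ := h.tw.surj z''
      rw [← h.d0_p] at hz''
      have : p (x - d0 β z) = 0 := by rw [map_sub, hz'', sub_self]
      obtain ⟨x', hx'⟩ := (h.exact _).1 this
      obtain ⟨z', rfl⟩ := h1 x'
      refine ⟨z + i.rTensor A z', ?_⟩
      rw [map_add, ← h.d0_i, hx']
      abel
    | 1 =>
      intro X' X X'' _ _ _ _ _ _ β' β β'' i p h h1 h2 x hx
      have h3 : d0 β'' (p.rTensor A x) = 0 := by rw [← h.d0_p, hx, map_zero]
      obtain ⟨z'', hz''⟩ := h2 _ h3
      obtain ⟨z, rfl⟩ := h.tw.tw.surj z''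
      rw [← h.tw.d0_p] at hz''
      have : p.rTensor A (x - d0 (Run7.h817.Han.tw β) z) = 0 := by rw [map_sub, hz'', sub_self]
      obtain ⟨x', hx'⟩ := (h.tw.exact _).1 this
      have h4 : d0 β' x' = 0 := by
        apply h.inj
        rw [h.d0_i, hx', map_sub, hx, d0_d0, map_zero, sub_self]
      obtain ⟨z', rfl⟩ := h1 x' h4
      refine ⟨z + (i.rTensor A).rTensor A z', ?_⟩
      rw [map_add, ← h.tw.d0_i, hx']
      abel
    | n + 2 =>
      intro X' X X'' _ _ _ _ _ _ β' β β'' i p h h1 h2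
      exact ih (n + 1) (by omega) h.tw h1 h2

/-- injectivity on `h_0` -/
theorem L2z {X' X X'' : Type} [AddCommGroup X'] [Module k X'] [AddCommGroup X]
    [Module k X] [AddCommGroup X''] [Module k X''] {β' : BiAct k A X'} {β : BiAct k A X}
    {β'' : BiAct k A X''} {i : X' →ₗ[k] X} {p : X →ₗ[k] X''} (h : SES β' β β'' i p)
    (h1 : Hv 1 β) (h0 : ∀ x', (∃ z, d0 β z = i x') → ∃ z', d0 β' z' = x') : Hv 1 β'' := by
  intro z'' hz''
  obtain ⟨z, rfl⟩ := h.tw.surj z''
  rw [← h.d0_p] at hz''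
  obtain ⟨x', hx'⟩ := (h.exact _).1 hz''
  obtain ⟨z', hz'⟩ := h0 x' ⟨z, hx'.symm⟩
  have h2 : d0 β (z - i.rTensor A z') = 0 := by
    rw [map_sub, ← h.d0_i, hz', hx', sub_self]
  obtain ⟨t, ht⟩ := h1 _ h2
  refine ⟨(p.rTensor A).rTensor A t, ?_⟩
  rw [← h.tw.d0_p, ht, map_sub, h.tw.p_i, sub_zero]

/-- quotient term -/
theorem L2 (n : ℕ) : ∀ {X' X X'' : Type} [AddCommGroup X'] [Module k X'] [AddCommGroup X]
    [Module k X] [AddCommGroup X''] [Module k X''] {β' : BiAct k A X'} {β : BiAct k A X}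
    {β'' : BiAct k A X''} {i : X' →ₗ[k] X} {p : X →ₗ[k] X''} (_ : SES β' β β'' i p),
    Hv (n + 1) β → Hv n β' → Hv (n + 1) β'' := by
  induction n with
  | zero =>
    intro X' X X'' _ _ _ _ _ _ β' β β'' i p h h1 h0
    exact L2z h h1 (fun x' _ => h0 x')
  | succ n ih =>
    intro X' X X'' _ _ _ _ _ _ β' β β'' i p h h1 h0
    match n with
    | 0 =>
      refine L2z h.tw h1 ?_
      intro x' hx'
      obtain ⟨z, hz⟩ := hx'
      refine h0 x' ?_
      apply h.inj
      rw [h.d0_i, ← hz, d0_d0, map_zero]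
    | n + 1 => exact ih h.tw h1 h0

/-- sub term -/
theorem L3 (n : ℕ) : ∀ {X' X X'' : Type} [AddCommGroup X'] [Module k X'] [AddCommGroup X]
    [Module k X] [AddCommGroup X''] [Module k X''] {β' : BiAct k A X'} {β : BiAct k A X}
    {β'' : BiAct k A X''} {i : X' →ₗ[k] X} {p : X →ₗ[k] X''} (_ : SES β' β β'' i p),
    Hv (n + 1) β'' → Hv n β → Hv n β' := by
  induction n using Nat.strong_induction_on with
  | _ n ih =>
    match n with
    | 0 =>
      intro X' X X'' _ _ _ _ _ _ β' β β'' i p h h2 h1 x'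
      obtain ⟨z, hz⟩ := h1 (i x')
      have h3 : d0 β'' (p.rTensor A z) = 0 := by rw [← h.d0_p, hz, h.p_i]
      obtain ⟨t'', ht''⟩ := h2 _ h3
      obtain ⟨t, rfl⟩ := h.tw.tw.surj t''
      rw [← h.tw.d0_p] at ht''
      have : p.rTensor A (z - d0 (Run7.h817.Han.tw β) t) = 0 := by rw [map_sub, ht'', sub_self]
      obtain ⟨z', hz'⟩ := (h.tw.exact _).1 this
      refine ⟨z', h.inj ?_⟩
      rw [h.d0_i, hz', map_sub, d0_d0, hz, sub_zero]
    | 1 =>
      intro X' X X'' _ _ _ _ _ _ β' β β'' i p h h2 h1 x' hx'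
      have h0 : d0 β (i.rTensor A x') = 0 := by rw [← h.d0_i, hx', map_zero]
      obtain ⟨z, hz⟩ := h1 _ h0
      have h3 : d0 (Run7.h817.Han.tw β'') ((p.rTensor A).rTensor A z) = 0 := by
        rw [← h.tw.d0_p, hz, h.tw.p_i]
      obtain ⟨t'', ht''⟩ := h2 _ h3
      obtain ⟨t, rfl⟩ := h.tw.tw.tw.surj t''
      rw [← h.tw.tw.d0_p] at ht''
      have : (p.rTensor A).rTensor A (z - d0 (Run7.h817.Han.tw (Run7.h817.Han.tw β)) t) = 0 := by
        rw [map_sub, ht'', sub_self]
      obtain ⟨z', hz'⟩ := (h.tw.tw.exact _).1 this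
      refine ⟨z', h.tw.inj ?_⟩
      rw [h.tw.d0_i, hz', map_sub, d0_d0, hz, sub_zero]
    | n + 2 =>
      intro X' X X'' _ _ _ _ _ _ β' β β'' i p h h2 h1
      exact ih (n + 1) (by omega) h.tw h2 h1

end Run7.h975.Han
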