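import Mathlib
import Pool.Agent.Run7.h975.Han.Hom1
import Pool.Agent.Run7.h921.Han.IND

/-!
# Induced bimodules, products, quotients, unions of chains
-/

set_option autoImplicit false

open scoped TensorProduct

namespace Run7.h975.Han

open Run7.h817.Han Run7.h921.Han

variable {k A : Type} [Field k] [Ring A] [Algebra k A]

/-- the hypotheses of IND -/
theorem les : LES k A where
  L1 := fun h n => L1 n h
  L2 := fun h n => L2 n h
  L2z := fun h h1 h0 => L2z h h1 (fun x' hx' => h0 x' hx')

/-! ### twisted right actions and `ten` -/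

section ten

variable {X Y : Type} [AddCommGroup X] [Module k X] [AddCommGroup Y] [Module k Y]

/-- the twisted right action on `Y ⊗ A` -/
noncomputable def twR (rY : RAct k A Y) : RAct k A (Y ⊗[k] A) where
  r := {
    toFun := fun b => (LinearMap.mulRight k b).lTensor Y -
      ((TensorProduct.mk k Y A).flip b) ∘ₗ TensorProduct.lift rY.r.flip
    map_add' := fun b c => by
      apply TensorProduct.ext'
      intro x a
      simp [mul_add, TensorProduct.tmul_add]
      abel
    map_smul' := fun t b => by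
      apply TensorProduct.ext'
      intro x a
      simp [TensorProduct.tmul_smul, smul_sub] }
  r_mul a b x := by
    induction x with
    | zero => simp
    | tmul x c => simp [rY.r_mul, mul_assoc]
    | add x y hx hy => rw [map_add, hx, hy, map_add, map_add]

@[simp] theorem twR_tmul (rY : RAct k A Y) (b : A) (y : Y) (c : A) :
    (twR rY).r b (y ⊗ₜ c) = y ⊗ₜ (c * b) - (rY.r c y) ⊗ₜ b := by
  simp [twR]

@[simp] theorem ten_l_tmul (lX : LAct k A X) (rY : RAct k A Y) (a : A) (x : X) (y : Y) :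
    (ten lX rY).l a (x ⊗ₜ y) = (lX.l a x) ⊗ₜ y := by
  simp [ten]

@[simp] theorem ten_r_tmul (lX : LAct k A X) (rY : RAct k A Y) (a : A) (x : X) (y : Y) :
    (ten lX rY).r a (x ⊗ₜ y) = x ⊗ₜ (rY.r a y) := by
  simp [ten]

/-- the homotopy in degree `0` -/
noncomputable def hom0 (e : X) (s : X →ₗ[k] A) : X ⊗[k] Y →ₗ[k] (X ⊗[k] Y) ⊗[k] A :=
  TensorProduct.lift (LinearMap.mk₂ k (fun x y => (e ⊗ₜ[k] y) ⊗ₜ[k] s x)
    (fun x x' y => by simp [TensorProduct.tmul_add])
    (fun c x y => by simp)
    (fun x y y' => by simp [TensorProduct.tmul_add, TensorProduct.add_tmul])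
    (fun c x y => by simp [TensorProduct.smul_tmul']))

@[simp] theorem hom0_tmul (e : X) (s : X →ₗ[k] A) (x : X) (y : Y) :
    hom0 e s (x ⊗ₜ y) = (e ⊗ₜ[k] y) ⊗ₜ[k] s x := by
  simp [hom0]

/-- the homotopy in degree `1` -/
noncomputable def hom1 (e : X) (s : X →ₗ[k] A) :
    (X ⊗[k] Y) ⊗[k] A →ₗ[k] ((X ⊗[k] Y) ⊗[k] A) ⊗[k] A :=
  (TensorProduct.rightComm k (X ⊗[k] Y) A A).toLinearMap ∘ₗ (hom0 e s).rTensor A

@[simp] theorem hom1_tmul (e : X) (s : X →ₗ[k] A) (x : X) (y : Y) (c : A) :
    hom1 e s ((x ⊗ₜ y) ⊗ₜ c) = ((e ⊗ₜ[k] y) ⊗ₜ[k] c) ⊗ₜ[k] s x := by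
  simp [hom1]

theorem hom1_spec (lX : LAct k A X) (rY : RAct k A Y) (e : X) (s : X →ₗ[k] A)
    (h1 : ∀ a x, s (lX.l a x) = a * s x) (h2 : ∀ x, lX.l (s x) e = x) (z : (X ⊗[k] Y) ⊗[k] A) :
    d0 (tw (ten lX rY)) (hom1 e s z) + hom0 e s (d0 (ten lX rY) z) + z = 0 := by
  induction z with
  | zero => simp
  | tmul w c =>
    induction w with
    | zero => simp
    | tmul x y =>
      simp [h1, h2]
      abel
    | add w w' h h' =>
      rw [TensorProduct.add_tmul, map_add, map_add, map_add, map_add]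
      rw [← add_zero (0 : (X ⊗[k] Y) ⊗[k] A)]
      nth_rw 1 [← h]
      rw [← h']
      abel
  | add w w' h h' =>
      rw [map_add, map_add, map_add, map_add]
      rw [← add_zero (0 : (X ⊗[k] Y) ⊗[k] A)]
      nth_rw 1 [← h]
      rw [← h']
      abel

theorem Hv_one_ten (lX : LAct k A X) (rY : RAct k A Y) (h : Principal lX) :
    Hv 1 (ten lX rY) := by
  obtain ⟨e, s, h1, h2⟩ := h
  intro z hz
  refine ⟨(-1 : k) • hom1 e s z, ?_⟩
  have h3 := hom1_spec lX rY e s h1 h2 z
  rw [hz, map_zero, add_zero] at h3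
  have h4 : d0 (tw (ten lX rY)) ((-1 : k) • hom1 e s z) + d0 (tw (ten lX rY)) (hom1 e s z) = 0 := by
    rw [map_smul]
    have : ((-1 : k) • d0 (tw (ten lX rY)) (hom1 e s z)) + (1 : k) • d0 (tw (ten lX rY)) (hom1 e s z)
        = 0 := by rw [← add_smul]; simp
    rwa [one_smul] at this
  rw [← h3] at h4
  rw [add_comm] at h4
  exact add_left_cancel h4

theorem Hv_ten (n : ℕ) : ∀ {Y : Type} [AddCommGroup Y] [Module k Y] (lX : LAct k A X)
    (rY : RAct k A Y) (_ : Principal lX), Hv (n + 1) (ten lX rY) := by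
  induction n with
  | zero => intro Y _ _ lX rY h; exact Hv_one_ten lX rY h
  | succ n ih =>
    intro Y _ _ lX rY h
    refine Hv_congr (n + 1) (ten lX (twR rY)) (tw (ten lX rY))
      (TensorProduct.assoc k X Y A).symm ?_ ?_ (ih lX (twR rY) h)
    · intro a z
      induction z with
      | zero => simp
      | tmul x w =>
        induction w with
        | zero => simp
        | tmul y c => simp
        | add w w' h h' =>
          rw [TensorProduct.tmul_add, map_add, map_add, h, h', map_add, map_add]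
      | add w w' h h' => rw [map_add, map_add, h, h', map_add, map_add]
    · intro a z
      induction z with
      | zero => simp
      | tmul x w =>
        induction w with
        | zero => simp
        | tmul y c => simp [TensorProduct.tmul_sub]
        | add w w' h h' =>
          rw [TensorProduct.tmul_add, map_add, map_add, h, h', map_add, map_add]
      | add w w' h h' => rw [map_add, map_add, h, h', map_add, map_add]

/-- `h_0 (X ⊗ Y) → Y`, `x ⊗ y ↦ y * s x` -/
noncomputable def phi0 (rY : RAct k A Y) (s : X →ₗ[k] A) : X ⊗[k] Y →ₗ[k] Y :=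
  TensorProduct.lift (rY.r ∘ₗ s)

@[simp] theorem phi0_tmul (rY : RAct k A Y) (s : X →ₗ[k] A) (x : X) (y : Y) :
    phi0 rY s (x ⊗ₜ y) = rY.r (s x) y := by
  simp [phi0]

theorem phi0_d0 (lX : LAct k A X) (rY : RAct k A Y) (s : X →ₗ[k] A)
    (h1 : ∀ a x, s (lX.l a x) = a * s x) (z : (X ⊗[k] Y) ⊗[k] A) :
    phi0 rY s (d0 (ten lX rY) z) = 0 := by
  induction z with
  | zero => simp
  | tmul w c =>
    induction w with
    | zero => simp
    | tmul x y => simp [h1, rY.r_mul]
    | add w w' h h' => rw [TensorProduct.add_tmul, map_add, map_add, h, h', add_zero]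
  | add w w' h h' => rw [map_add, map_add, h, h', add_zero]

theorem hom0_spec (lX : LAct k A X) (rY : RAct k A Y) (e : X) (s : X →ₗ[k] A)
    (h2 : ∀ x, lX.l (s x) e = x) (z : X ⊗[k] Y) :
    d0 (ten lX rY) (hom0 e s z) + z = e ⊗ₜ phi0 rY s z := by
  induction z with
  | zero => simp
  | tmul x y => simp [h2]
  | add w w' h h' =>
    rw [map_add, map_add, map_add, TensorProduct.tmul_add, ← h, ← h']
    abel

/-- description of `h_0` of an induced bimodule -/
theorem range_d0_ten (lX : LAct k A X) (rY : RAct k A Y) (e : X) (s : X →ₗ[k] A)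
    (h1 : ∀ a x, s (lX.l a x) = a * s x) (h2 : ∀ x, lX.l (s x) e = x) (z : X ⊗[k] Y) :
    z ∈ LinearMap.range (d0 (ten lX rY)) ↔ phi0 rY s z = 0 := by
  constructor
  · rintro ⟨w, rfl⟩
    exact phi0_d0 lX rY s h1 w
  · intro h
    refine ⟨-hom0 e s z, ?_⟩
    have h3 := hom0_spec lX rY e s h2 z
    rw [h, TensorProduct.tmul_zero] at h3
    rw [map_neg]
    exact neg_eq_of_add_eq_zero_right h3

end ten

/-! ### products -/

section prod

variable {X Y : Type} [AddCommGroup X] [Module k X] [AddCommGroup Y] [Module k Y]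

/-- product of two bimodules -/
noncomputable def prodAct (β : BiAct k A X) (γ : BiAct k A Y) : BiAct k A (X × Y) where
  l := {
    toFun := fun a => (β.l a).prodMap (γ.l a)
    map_add' := fun a b => by ext <;> simp
    map_smul' := fun t b => by ext <;> simp }
  r := {
    toFun := fun a => (β.r a).prodMap (γ.r a)
    map_add' := fun a b => by ext <;> simp
    map_smul' := fun t b => by ext <;> simp }
  l_mul a b x := by ext <;> simp [β.l_mul, γ.l_mul]
  r_mul a b x := by ext <;> simp [β.r_mul, γ.r_mul]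
  comm a b x := by ext <;> simp [β.comm, γ.comm]

@[simp] theorem prodAct_l (β : BiAct k A X) (γ : BiAct k A Y) (a : A) (x : X × Y) :
    (prodAct β γ).l a x = (β.l a x.1, γ.l a x.2) := rfl

@[simp] theorem prodAct_r (β : BiAct k A X) (γ : BiAct k A Y) (a : A) (x : X × Y) :
    (prodAct β γ).r a x = (β.r a x.1, γ.r a x.2) := rfl

theorem prod_SES (β : BiAct k A X) (γ : BiAct k A Y) :
    SES β (prodAct β γ) γ (LinearMap.inl k X Y) (LinearMap.snd k X Y) where
  inj := LinearMap.inl_injective
  surj := LinearMap.snd_surjective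
  exact := fun x => by
    constructor
    · intro h
      exact ⟨x.1, Prod.ext rfl h.symm⟩
    · rintro ⟨y, rfl⟩
      rfl
  i_l := fun a x => by simp
  i_r := fun a x => by simp
  p_l := fun a x => rfl
  p_r := fun a x => rfl

theorem Hv_prod (n : ℕ) (β : BiAct k A X) (γ : BiAct k A Y) (h1 : Hv n β) (h2 : Hv n γ) :
    Hv n (prodAct β γ) := L1 n (prod_SES β γ) h1 h2

/-- `h_0` of a product -/
theorem range_d0_prod (β : BiAct k A X) (γ : BiAct k A Y) (x : X × Y) :
    x ∈ LinearMap.range (d0 (prodAct β γ)) ↔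
      x.1 ∈ LinearMap.range (d0 β) ∧ x.2 ∈ LinearMap.range (d0 γ) := by
  constructor
  · intro h
    exact ⟨map_range (u := LinearMap.fst k X Y) (fun a x => rfl) (fun a x => rfl) h,
      map_range (u := LinearMap.snd k X Y) (fun a x => rfl) (fun a x => rfl) h⟩
  · rintro ⟨h1, h2⟩
    have h3 := map_range (β := β) (γ := prodAct β γ) (u := LinearMap.inl k X Y)
      (fun a x => by simp) (fun a x => by simp) h1
    have h4 := map_range (β := γ) (γ := prodAct β γ) (u := LinearMap.inr k X Y)
      (fun a x => by simp) (fun a x => by simp) h2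
    have h5 := Submodule.add_mem _ h3 h4
    simpa using h5

end prod

/-! ### quotients -/

section quot

variable {X : Type} [AddCommGroup X] [Module k X]

/-- the quotient by a stable subspace -/
noncomputable def quotAct (β : BiAct k A X) (S : Submodule k X)
    (hl : ∀ a x, x ∈ S → β.l a x ∈ S) (hr : ∀ a x, x ∈ S → β.r a x ∈ S) : BiAct k A (X ⧸ S) where
  l := {
    toFun := fun a => S.mapQ S (β.l a) (fun x hx => hl a x hx)
    map_add' := fun a b => by
      apply Submodule.linearMap_qext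
      ext x
      simp
    map_smul' := fun t b => by
      apply Submodule.linearMap_qext
      ext x
      simp }
  r := {
    toFun := fun a => S.mapQ S (β.r a) (fun x hx => hr a x hx)
    map_add' := fun a b => by
      apply Submodule.linearMap_qext
      ext x
      simp
    map_smul' := fun t b => by
      apply Submodule.linearMap_qext
      ext x
      simp }
  l_mul a b x := by
    obtain ⟨x, rfl⟩ := S.mkQ_surjective x
    simp [β.l_mul]
  r_mul a b x := by
    obtain ⟨x, rfl⟩ := S.mkQ_surjective x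
    simp [β.r_mul]
  comm a b x := by
    obtain ⟨x, rfl⟩ := S.mkQ_surjective x
    simp [β.comm]

@[simp] theorem quotAct_l (β : BiAct k A X) (S : Submodule k X)
    (hl : ∀ a x, x ∈ S → β.l a x ∈ S) (hr : ∀ a x, x ∈ S → β.r a x ∈ S) (a : A) (x : X) :
    (quotAct β S hl hr).l a (S.mkQ x) = S.mkQ (β.l a x) := rfl

@[simp] theorem quotAct_r (β : BiAct k A X) (S : Submodule k X)
    (hl : ∀ a x, x ∈ S → β.l a x ∈ S) (hr : ∀ a x, x ∈ S → β.r a x ∈ S) (a : A) (x : X) :
    (quotAct β S hl hr).r a (S.mkQ x) = S.mkQ (β.r a x) := rfl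

theorem quot_SES (β : BiAct k A X) (S : Submodule k X)
    (hl : ∀ a x, x ∈ S → β.l a x ∈ S) (hr : ∀ a x, x ∈ S → β.r a x ∈ S) :
    SES (subAct β S hl hr) β (quotAct β S hl hr) S.subtype S.mkQ where
  inj := Subtype.val_injective
  surj := S.mkQ_surjective
  exact := fun x => by
    constructor
    · intro h
      exact ⟨⟨x, (Submodule.Quotient.mk_eq_zero S).1 h⟩, rfl⟩
    · rintro ⟨y, rfl⟩
      exact (Submodule.Quotient.mk_eq_zero S).2 y.2
  i_l := fun a x => rfl
  i_r := fun a x => rfl
  p_l := fun a x => rfl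
  p_r := fun a x => rfl

/-- a surjective intertwining map gives a short exact sequence with its kernel -/
theorem ker_SES {Y : Type} [AddCommGroup Y] [Module k Y] (β : BiAct k A X) (γ : BiAct k A Y)
    (p : X →ₗ[k] Y) (hp : Function.Surjective p)
    (hl : ∀ a x, p (β.l a x) = γ.l a (p x)) (hr : ∀ a x, p (β.r a x) = γ.r a (p x)) :
    SES (subAct β (LinearMap.ker p)
      (fun a x hx => by rw [LinearMap.mem_ker] at hx ⊢; rw [hl, hx, map_zero])
      (fun a x hx => by rw [LinearMap.mem_ker] at hx ⊢; rw [hr, hx, map_zero]))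
      β γ (LinearMap.ker p).subtype p where
  inj := Subtype.val_injective
  surj := hp
  exact := fun x => by
    constructor
    · intro h
      exact ⟨⟨x, h⟩, rfl⟩
    · rintro ⟨y, rfl⟩
      exact y.2
  i_l := fun a x => rfl
  i_r := fun a x => rfl
  p_l := hl
  p_r := hr

/-- the inclusion of two stable subspaces `S ≤ T` together with a surjection `T → Q` with
kernel `S` -/
theorem incl_SES {Q : Type} [AddCommGroup Q] [Module k Q] (β : BiAct k A X) (S T : Submodule k X)
    (hSl : ∀ a x, x ∈ S → β.l a x ∈ S) (hSr : ∀ a x, x ∈ S → β.r a x ∈ S)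
    (hTl : ∀ a x, x ∈ T → β.l a x ∈ T) (hTr : ∀ a x, x ∈ T → β.r a x ∈ T)
    (hST : S ≤ T) (γ : BiAct k A Q) (q : T →ₗ[k] Q) (hq : Function.Surjective q)
    (hker : ∀ x : T, q x = 0 ↔ (x : X) ∈ S)
    (hl : ∀ a (x y : T), (y : X) = β.l a x → q y = γ.l a (q x))
    (hr : ∀ a (x y : T), (y : X) = β.r a x → q y = γ.r a (q x)) :
    SES (subAct β S hSl hSr) (subAct β T hTl hTr) γ (Submodule.inclusion hST) q where
  inj := Submodule.inclusion_injective hST
  surj := hq
  exact := fun x => by
    rw [hker]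
    constructor
    · intro h
      exact ⟨⟨x, h⟩, rfl⟩
    · rintro ⟨y, rfl⟩
      exact y.2
  i_l := fun a x => rfl
  i_r := fun a x => rfl
  p_l := fun a x => hl a x _ rfl
  p_r := fun a x => hr a x _ rfl

end quot

/-! ### unions of chains -/

/-- vanishing for an increasing union of sub-bimodules -/
theorem Hv_iUnion (m : ℕ) : ∀ {X : Type} [AddCommGroup X] [Module k X] (β : BiAct k A X)
    (Y : ℕ → Type) [∀ n, AddCommGroup (Y n)] [∀ n, Module k (Y n)] (γ : ∀ n, BiAct k A (Y n))
    (j : ∀ n, Y n →ₗ[k] X) (_ : ∀ n, Function.Injective (j n))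
    (_ : ∀ n a x, j n ((γ n).l a x) = β.l a (j n x))
    (_ : ∀ n a x, j n ((γ n).r a x) = β.r a (j n x))
    (_ : ∀ n, LinearMap.range (j n) ≤ LinearMap.range (j (n + 1)))
    (_ : ∀ x, ∃ n, x ∈ LinearMap.range (j n)), (∀ n, Hv m (γ n)) → Hv m β := by
  have key : ∀ {X : Type} [AddCommGroup X] [Module k X]
    (Y : ℕ → Type) [∀ n, AddCommGroup (Y n)] [∀ n, Module k (Y n)]
    (j : ∀ n, Y n →ₗ[k] X) (_ : ∀ n, LinearMap.range (j n) ≤ LinearMap.range (j (n + 1)))
    (_ : ∀ x, ∃ n, x ∈ LinearMap.range (j n)),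
    (∀ n, LinearMap.range ((j n).rTensor A) ≤ LinearMap.range ((j (n + 1)).rTensor A)) ∧
      ∀ z, ∃ n, z ∈ LinearMap.range ((j n).rTensor A) := by
    intro X _ _ Y _ _ j hm ha
    have h1 : ∀ n, LinearMap.range ((j n).rTensor A) ≤ LinearMap.range ((j (n + 1)).rTensor A) := by
      rintro n _ ⟨z, rfl⟩
      induction z with
      | zero => simp
      | tmul x a =>
        obtain ⟨y, hy⟩ := hm n ⟨x, rfl⟩
        exact ⟨y ⊗ₜ a, by simp [hy]⟩
      | add x y hx hy => rw [map_add]; exact Submodule.add_mem _ hx hy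
    refine ⟨h1, ?_⟩
    have hmono : Monotone (fun n => LinearMap.range ((j n).rTensor A)) := monotone_nat_of_le_succ h1
    intro z
    induction z with
    | zero => exact ⟨0, Submodule.zero_mem _⟩
    | tmul x a =>
      obtain ⟨n, y, hy⟩ := ha x
      exact ⟨n, y ⊗ₜ a, by simp [hy]⟩
    | add x y hx hy =>
      obtain ⟨n, hn⟩ := hx
      obtain ⟨p, hp⟩ := hy
      exact ⟨max n p, Submodule.add_mem _ (hmono (le_max_left n p) hn)
        (hmono (le_max_right n p) hp)⟩
  induction m using Nat.strong_induction_on with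
  | _ m ih =>
    match m with
    | 0 =>
      intro X _ _ β Y _ _ γ j hj hl hr hm ha h x
      obtain ⟨n, y, hy⟩ := ha x
      obtain ⟨t, ht⟩ := h n y
      refine ⟨(j n).rTensor A t, ?_⟩
      rw [← d0_map (j n) (hl n) (hr n), ht, hy]
    | 1 =>
      intro X _ _ β Y _ _ γ j hj hl hr hm ha h x hx
      obtain ⟨n, y, hy⟩ := (key Y j hm ha).2 x
      have h1 : d0 (γ n) y = 0 := by
        apply hj n
        rw [d0_map (j n) (hl n) (hr n), hy, hx, map_zero]
      obtain ⟨t, ht⟩ := h n y h1
      refine ⟨((j n).rTensor A).rTensor A t, ?_⟩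
      rw [← d0_map ((j n).rTensor A) (tw_l_map (j n) (hl n)) (tw_r_map (j n) (hr n)), ht, hy]
    | m + 2 =>
      intro X _ _ β Y _ _ γ j hj hl hr hm ha h
      exact ih (m + 1) (by omega) (tw β) (fun n => Y n ⊗[k] A) (fun n => tw (γ n))
        (fun n => (j n).rTensor A)
        (fun n => Module.Flat.rTensor_preserves_injective_linearMap (j n) (hj n))
        (fun n => tw_l_map (j n) (hl n)) (fun n => tw_r_map (j n) (hr n))
        (key Y j hm ha).1 (key Y j hm ha).2 h

/-- exhaustion of a bimodule by stable subspaces with good successive quotients -/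
theorem Hv_filtration {X : Type} [AddCommGroup X] [Module k X] (β : BiAct k A X)
    (U : ℕ → Submodule k X)
    (hl : ∀ n a x, x ∈ U n → β.l a x ∈ U n) (hr : ∀ n a x, x ∈ U n → β.r a x ∈ U n)
    (hmono : ∀ n, U n ≤ U (n + 1)) (hall : ∀ x, ∃ n, x ∈ U n) (m : ℕ)
    (h0 : Hv m (subAct β (U 0) (hl 0) (hr 0)))
    (hstep : ∀ n, ∃ (Q : Type) (_ : AddCommGroup Q) (_ : Module k Q) (γ : BiAct k A Q)
      (q : U (n + 1) →ₗ[k] Q), Function.Surjective q ∧ (∀ x : U (n + 1), q x = 0 ↔ (x : X) ∈ U n) ∧
      (∀ a (x y : U (n + 1)), (y : X) = β.l a x → q y = γ.l a (q x)) ∧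
      (∀ a (x y : U (n + 1)), (y : X) = β.r a x → q y = γ.r a (q x)) ∧ Hv m γ) :
    Hv m β := by
  have h1 : ∀ n, Hv m (subAct β (U n) (hl n) (hr n)) := by
    intro n
    induction n with
    | zero => exact h0
    | succ n ih =>
      obtain ⟨Q, _, _, γ, q, hq, hk, hql, hqr, hv⟩ := hstep n
      exact L1 m (incl_SES β (U n) (U (n + 1)) (hl n) (hr n) (hl (n + 1)) (hr (n + 1)) (hmono n) γ q
        hq hk hql hqr) ih hv
  refine Hv_iUnion m β (fun n => U n) (fun n => subAct β (U n) (hl n) (hr n))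
    (fun n => (U n).subtype) (fun n => Subtype.val_injective) (fun n a x => rfl)
    (fun n a x => rfl) ?_ ?_ h1
  · intro n
    rw [Submodule.range_subtype, Submodule.range_subtype]
    exact hmono n
  · intro x
    obtain ⟨n, hn⟩ := hall x
    exact ⟨n, ⟨x, hn⟩, rfl⟩

end Run7.h975.Han
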