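import Mathlib
import Pool.Agent.Run7.h975.Han.Hom2
import Pool.Agent.Run7.h921.Han.BRES

/-!
# Finitely generated modules over a noetherian domain (abstract form of step B)
-/

set_option autoImplicit false

open scoped TensorProduct

namespace Run7.h975.Han

open Run7.h817.Han Run7.h921.Han

variable {k A : Type} [Field k] [Ring A] [Algebra k A]

theorem ten_van : TEN k A := fun lX rY h n => Hv_ten n lX rY h

/-- a finitely generated divisible module over a noetherian domain which is not a field is zero -/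
theorem eq_zero_of_div {R : Type} [CommRing R] [IsDomain R]
    (hR : ∃ ϖ : R, ϖ ≠ 0 ∧ ¬ IsUnit ϖ) {H : Type} [AddCommGroup H] [Module R H] [Module.Finite R H]
    (h : ∀ f : R, f ≠ 0 → ∀ x : H, ∃ y : H, f • y = x) (x : H) : x = 0 := by
  obtain ⟨ϖ, h0, hu⟩ := hR
  obtain ⟨r, hr, hr'⟩ := Submodule.exists_sub_one_mem_and_smul_eq_zero_of_fg_of_le_smul
    (Ideal.span {ϖ}) (⊤ : Submodule R H) Module.Finite.fg_top (by
      intro y _
      obtain ⟨z, rfl⟩ := h ϖ h0 y
      exact Submodule.smul_mem_smul (Ideal.mem_span_singleton_self ϖ) trivial)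
  have hr0 : r ≠ 0 := by
    rintro rfl
    apply hu
    rw [zero_sub, neg_mem_iff, Ideal.mem_span_singleton] at hr
    exact isUnit_of_dvd_one hr
  obtain ⟨y, rfl⟩ := h r hr0 x
  exact hr' y trivial

section

variable {R : Type} [CommRing R] [Algebra k R]
variable {X : Type} [AddCommGroup X] [Module k X] [Module R X] [IsScalarTower k R X]

/-- multiplication by an element of `R` as a `k`-linear map -/
def mulBy (k : Type) [Field k] {R : Type} [CommRing R] [Algebra k R] (X : Type) [AddCommGroup X]
    [Module k X] [Module R X] [IsScalarTower k R X] (f : R) : X →ₗ[k] X where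
  toFun x := f • x
  map_add' x y := smul_add f x y
  map_smul' c x := by
    rw [RingHom.id_apply, ← algebraMap_smul R c x, ← algebraMap_smul R c (f • x), smul_smul,
      smul_smul, mul_comm]

@[simp] theorem mulBy_apply (f : R) (x : X) : mulBy k X f x = f • x := rfl

theorem mulBy_rTensor (f : R) : (mulBy k X f).rTensor A = mulBy k (X ⊗[k] A) f := by
  apply TensorProduct.ext'
  intro x a
  simp [TensorProduct.smul_tmul']

theorem finite_tensor [Module.Finite R X] [FiniteDimensional k A] :
    Module.Finite R (X ⊗[k] A) := by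
  let b := Module.finBasis k A
  let φ : (Fin (Module.finrank k A) → X) →ₗ[R] X ⊗[k] A :=
    { toFun := fun x => ∑ i, x i ⊗ₜ[k] b i
      map_add' := fun x y => by simp [TensorProduct.add_tmul, Finset.sum_add_distrib]
      map_smul' := fun c x => by simp [TensorProduct.smul_tmul', Finset.smul_sum] }
  refine Module.Finite.of_surjective φ ?_
  intro z
  induction z with
  | zero => exact ⟨0, map_zero _⟩
  | tmul x a =>
    refine ⟨fun i => b.repr a i • x, ?_⟩
    show ∑ i, (b.repr a i • x) ⊗ₜ[k] b i = x ⊗ₜ a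
    conv_rhs => rw [← b.sum_repr a]
    rw [TensorProduct.tmul_sum]
    refine Finset.sum_congr rfl fun i _ => ?_
    rw [TensorProduct.smul_tmul]
  | add x y hx hy =>
    obtain ⟨x', rfl⟩ := hx
    obtain ⟨y', rfl⟩ := hy
    exact ⟨x' + y', map_add _ _ _⟩

theorem d0_smul (β : BiAct k A X) (hl : ∀ a (f : R) x, β.l a (f • x) = f • β.l a x)
    (hr : ∀ a (f : R) x, β.r a (f • x) = f • β.r a x) (f : R) (z : X ⊗[k] A) :
    d0 β (f • z) = f • d0 β z := by
  induction z with
  | zero => simp
  | tmul x a => rw [TensorProduct.smul_tmul', d0_tmul, d0_tmul, hl, hr, smul_sub]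
  | add x y hx hy => rw [smul_add, map_add, hx, hy, map_add, smul_add]

theorem tw_l_smul (β : BiAct k A X) (hl : ∀ a (f : R) x, β.l a (f • x) = f • β.l a x)
    (a : A) (f : R) (z : X ⊗[k] A) :
    (tw β).l a (f • z) = f • (tw β).l a z := by
  induction z with
  | zero => simp
  | tmul x c => rw [TensorProduct.smul_tmul', tw_l_tmul, tw_l_tmul, hl, TensorProduct.smul_tmul']
  | add x y hx hy => rw [smul_add, map_add, hx, hy, map_add, smul_add]

theorem tw_r_smul (β : BiAct k A X) (hr : ∀ a (f : R) x, β.r a (f • x) = f • β.r a x)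
    (a : A) (f : R) (z : X ⊗[k] A) :
    (tw β).r a (f • z) = f • (tw β).r a z := by
  induction z with
  | zero => simp
  | tmul x c =>
    rw [TensorProduct.smul_tmul', tw_r_tmul, tw_r_tmul, hr, smul_sub, TensorProduct.smul_tmul',
      TensorProduct.smul_tmul']
  | add x y hx hy => rw [smul_add, map_add, hx, hy, map_add, smul_add]

end

/-- Step B: if `X` is finitely generated over the noetherian domain `R` (not a field), the actions
are `R`-linear, and for every nonzero `f` the bimodule `X / f X` has vanishing homology in degree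
`n`, then so has `X`. -/
theorem Hv_fg (R : Type) [CommRing R] [IsDomain R] [IsNoetherianRing R] [Algebra k R]
    (hR : ∃ ϖ : R, ϖ ≠ 0 ∧ ¬ IsUnit ϖ) [FiniteDimensional k A] (n : ℕ) :
    ∀ {X : Type} [AddCommGroup X] [Module k X] [Module R X] [IsScalarTower k R X]
    [Module.Finite R X] (β : BiAct k A X)
    (_ : ∀ a (f : R) x, β.l a (f • x) = f • β.l a x)
    (_ : ∀ a (f : R) x, β.r a (f • x) = f • β.r a x)
    (_ : ∀ f : R, f ≠ 0 → ∃ (Q : Type) (_ : AddCommGroup Q) (_ : Module k Q) (γ : BiAct k A Q)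
      (p : X →ₗ[k] Q), SES β β γ (mulBy k X f) p ∧ Hv n γ), Hv n β := by
  induction n using Nat.strong_induction_on with
  | _ n ih =>
    match n with
    | 0 =>
      intro X _ _ _ _ _ β hl hr hq x
      let N : Submodule R X :=
        { carrier := Set.range (d0 β)
          add_mem' := by
            rintro _ _ ⟨y, rfl⟩ ⟨z, rfl⟩
            exact ⟨y + z, map_add _ _ _⟩
          zero_mem' := ⟨0, map_zero _⟩
          smul_mem' := by
            rintro c _ ⟨y, rfl⟩
            exact ⟨c • y, d0_smul β hl hr c y⟩ }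
      have h1 : ∀ f : R, f ≠ 0 → ∀ x : X ⧸ N, ∃ y : X ⧸ N, f • y = x := by
        intro f hf x
        obtain ⟨x, rfl⟩ := N.mkQ_surjective x
        obtain ⟨Q, _, _, γ, p, hs, hv⟩ := hq f hf
        obtain ⟨t'', ht''⟩ := hv (p x)
        obtain ⟨t, rfl⟩ := hs.tw.surj t''
        rw [← hs.d0_p] at ht''
        have : p (x - d0 β t) = 0 := by rw [map_sub, ht'', sub_self]
        obtain ⟨y, hy⟩ := (hs.exact _).1 this
        refine ⟨N.mkQ y, ?_⟩
        rw [← map_smul]
        rw [mulBy_apply] at hy
        rw [hy, map_sub, sub_eq_self]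
        exact (Submodule.Quotient.mk_eq_zero N).2 ⟨t, rfl⟩
      exact (Submodule.Quotient.mk_eq_zero N).1 (eq_zero_of_div hR h1 (N.mkQ x))
    | 1 =>
      intro X _ _ _ _ _ β hl hr hq x hx
      haveI : Module.Finite R (X ⊗[k] A) := finite_tensor
      let D : X ⊗[k] A →ₗ[R] X :=
        { toFun := d0 β
          map_add' := map_add _
          map_smul' := fun c z => d0_smul β hl hr c z }
      let N : Submodule R (LinearMap.ker D) :=
        { carrier := {z | ∃ t, d0 (tw β) t = (z : X ⊗[k] A)}
          add_mem' := by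
            rintro _ _ ⟨y, hy⟩ ⟨z, hz⟩
            exact ⟨y + z, by rw [map_add, hy, hz]; rfl⟩
          zero_mem' := ⟨0, map_zero _⟩
          smul_mem' := by
            rintro c _ ⟨y, hy⟩
            exact ⟨c • y, by rw [d0_smul (tw β) (tw_l_smul β hl) (tw_r_smul β hr) c y, hy]; rfl⟩ }
      haveI : Module.Finite R (LinearMap.ker D) := Module.IsNoetherian.finite R _
      have h1 : ∀ f : R, f ≠ 0 → ∀ x : LinearMap.ker D ⧸ N, ∃ y : LinearMap.ker D ⧸ N,
          f • y = x := by
        intro f hf x
        obtain ⟨⟨x, hx⟩, rfl⟩ := N.mkQ_surjective x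
        have hx' : d0 β x = 0 := hx
        obtain ⟨Q, _, _, γ, p, hs, hv⟩ := hq f hf
        have h3 : d0 γ (p.rTensor A x) = 0 := by rw [← hs.d0_p, hx', map_zero]
        obtain ⟨t'', ht''⟩ := hv _ h3
        obtain ⟨t, rfl⟩ := hs.tw.tw.surj t''
        rw [← hs.tw.d0_p] at ht''
        have : p.rTensor A (x - d0 (tw β) t) = 0 := by rw [map_sub, ht'', sub_self]
        obtain ⟨y, hy⟩ := (hs.tw.exact _).1 this
        rw [mulBy_rTensor, mulBy_apply] at hy
        have hy0 : d0 β y = 0 := by
          apply hs.inj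
          rw [mulBy_apply, ← d0_smul β hl hr, hy, map_sub, hx', d0_d0, map_zero, sub_self]
        refine ⟨N.mkQ ⟨y, hy0⟩, ?_⟩
        rw [← map_smul, ← sub_eq_zero, ← map_sub]
        refine (Submodule.Quotient.mk_eq_zero N).2 ⟨-t, ?_⟩
        show d0 (tw β) (-t) = f • y - x
        rw [hy, map_neg]
        abel
      have h2 := (Submodule.Quotient.mk_eq_zero N).1
        (eq_zero_of_div hR h1 (N.mkQ (⟨x, hx⟩ : LinearMap.ker D)))
      exact h2
    | n + 2 =>
      intro X _ _ _ _ _ β hl hr hq
      haveI : Module.Finite R (X ⊗[k] A) := finite_tensor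
      refine ih (n + 1) (by omega) (tw β) (tw_l_smul β hl) (tw_r_smul β hr) ?_
      intro f hf
      obtain ⟨Q, _, _, γ, p, hs, hv⟩ := hq f hf
      refine ⟨Q ⊗[k] A, inferInstance, inferInstance, tw γ, p.rTensor A, ?_, hv⟩
      rw [← mulBy_rTensor]
      exact hs.tw

end Run7.h975.Han
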