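import Mathlib
import Pool.Agent.Run7.h975.Han.Hom3

/-!
# Steps B and C
-/

set_option autoImplicit false

open scoped TensorProduct

namespace Run7.h975.Han

open Run7.h817.Han Run7.h921.Han

variable {k A : Type} [Field k] [Ring A] [Algebra k A]

/-! ### Step C: from the union of a chain down to its first term -/

section chain

variable {X : Type} [AddCommGroup X] [Module k X]

/-- the quotient `T / S` for stable subspaces `S ≤ T` -/
noncomputable def relAct (β : BiAct k A X) (S T : Submodule k X)
    (hSl : ∀ a x, x ∈ S → β.l a x ∈ S) (hSr : ∀ a x, x ∈ S → β.r a x ∈ S)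
    (hTl : ∀ a x, x ∈ T → β.l a x ∈ T) (hTr : ∀ a x, x ∈ T → β.r a x ∈ T) :
    BiAct k A (T ⧸ S.comap T.subtype) :=
  quotAct (subAct β T hTl hTr) (S.comap T.subtype) (fun a x hx => hSl a x hx)
    (fun a x hx => hSr a x hx)

/-- Step C, abstract form -/
theorem Hv_sub_of_filtration (β : BiAct k A X)
    (U : ℕ → Submodule k X)
    (hl : ∀ n a x, x ∈ U n → β.l a x ∈ U n) (hr : ∀ n a x, x ∈ U n → β.r a x ∈ U n)
    (hmono : ∀ n, U n ≤ U (n + 1)) (hall : ∀ x, ∃ n, x ∈ U n)
    (hstep : ∀ n, ∃ (Q : Type) (_ : AddCommGroup Q) (_ : Module k Q) (γ : BiAct k A Q)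
      (q : U (n + 1) →ₗ[k] Q), Function.Surjective q ∧ (∀ x : U (n + 1), q x = 0 ↔ (x : X) ∈ U n) ∧
      (∀ a (x y : U (n + 1)), (y : X) = β.l a x → q y = γ.l a (q x)) ∧
      (∀ a (x y : U (n + 1)), (y : X) = β.r a x → q y = γ.r a (q x)) ∧ ∀ m, Hv m γ)
    (hX : ∀ m, Hv m β) (m : ℕ) :
    Hv m (subAct β (U 0) (hl 0) (hr 0)) := by
  have hm : Monotone U := monotone_nat_of_le_succ hmono
  -- `U n / U 0`
  have h1 : ∀ n m, Hv m (relAct β (U 0) (U n) (hl 0) (hr 0) (hl n) (hr n)) := by
    intro n
    induction n with
    | zero =>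
      intro m
      have : Subsingleton (U 0 ⧸ (U 0).comap (U 0).subtype) := by
        rw [Submodule.comap_subtype_self]
        infer_instance
      exact hv_subsingleton m _
    | succ n ih =>
      intro m
      obtain ⟨Q, _, _, γ, q, hq, hk, hql, hqr, hv⟩ := hstep n
      have h0n : U 0 ≤ U n := hm (Nat.zero_le n)
      let i : (U n ⧸ (U 0).comap (U n).subtype) →ₗ[k]
          (U (n + 1) ⧸ (U 0).comap (U (n + 1)).subtype) :=
        Submodule.mapQ _ _ (Submodule.inclusion (hmono n)) (fun x hx => hx)
      let p : (U (n + 1) ⧸ (U 0).comap (U (n + 1)).subtype) →ₗ[k] Q :=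
        Submodule.liftQ _ q (fun x hx => (hk x).2 (h0n hx))
      have hs : SES (relAct β (U 0) (U n) (hl 0) (hr 0) (hl n) (hr n))
          (relAct β (U 0) (U (n + 1)) (hl 0) (hr 0) (hl (n + 1)) (hr (n + 1))) γ i p :=
        { inj := by
            rw [injective_iff_map_eq_zero]
            intro x hx
            obtain ⟨x, rfl⟩ := Submodule.mkQ_surjective _ x
            have hx' : Submodule.inclusion (hmono n) x ∈ (U 0).comap (U (n + 1)).subtype :=
              (Submodule.Quotient.mk_eq_zero ((U 0).comap (U (n + 1)).subtype)).1 hx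
            exact (Submodule.Quotient.mk_eq_zero _).2 hx'
          surj := by
            intro y
            obtain ⟨x, rfl⟩ := hq y
            exact ⟨Submodule.mkQ _ x, rfl⟩
          exact := by
            intro x
            obtain ⟨x, rfl⟩ := Submodule.mkQ_surjective _ x
            constructor
            · intro h
              have h2 : (x : X) ∈ U n := (hk x).1 h
              exact ⟨Submodule.mkQ _ ⟨x, h2⟩, rfl⟩
            · rintro ⟨y, hy⟩
              obtain ⟨y, rfl⟩ := Submodule.mkQ_surjective _ y
              have h3 : Submodule.inclusion (hmono n) y - x ∈ (U 0).comap (U (n + 1)).subtype :=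
                (Submodule.Quotient.eq _).1 hy
              have h4 : q (Submodule.inclusion (hmono n) y - x) = 0 := (hk _).2 (h0n h3)
              have h5 : q (Submodule.inclusion (hmono n) y) = 0 := (hk _).2 y.2
              rw [map_sub, h5, zero_sub, neg_eq_zero] at h4
              exact h4
          i_l := by
            intro a x
            obtain ⟨x, rfl⟩ := Submodule.mkQ_surjective _ x
            rfl
          i_r := by
            intro a x
            obtain ⟨x, rfl⟩ := Submodule.mkQ_surjective _ x
            rfl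
          p_l := by
            intro a x
            obtain ⟨x, rfl⟩ := Submodule.mkQ_surjective _ x
            exact hql a x _ rfl
          p_r := by
            intro a x
            obtain ⟨x, rfl⟩ := Submodule.mkQ_surjective _ x
            exact hqr a x _ rfl }
      exact L1 m hs (ih m) (hv m)
  have h2 : ∀ m, Hv m (quotAct β (U 0) (hl 0) (hr 0)) := by
    intro m
    refine Hv_iUnion m (quotAct β (U 0) (hl 0) (hr 0))
      (fun n => U n ⧸ (U 0).comap (U n).subtype)
      (fun n => relAct β (U 0) (U n) (hl 0) (hr 0) (hl n) (hr n))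
      (fun n => Submodule.mapQ _ _ (U n).subtype (fun x hx => hx)) ?_ ?_ ?_ ?_ ?_
      (fun n => h1 n m)
    · intro n
      rw [injective_iff_map_eq_zero]
      intro x hx
      obtain ⟨x, rfl⟩ := Submodule.mkQ_surjective _ x
      have hx' : (x : X) ∈ U 0 := (Submodule.Quotient.mk_eq_zero (U 0)).1 hx
      exact (Submodule.Quotient.mk_eq_zero _).2 hx'
    · intro n a x
      obtain ⟨x, rfl⟩ := Submodule.mkQ_surjective _ x
      rfl
    · intro n a x
      obtain ⟨x, rfl⟩ := Submodule.mkQ_surjective _ x
      rfl
    · rintro n _ ⟨x, rfl⟩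
      obtain ⟨x, rfl⟩ := Submodule.mkQ_surjective _ x
      exact ⟨Submodule.mkQ _ (Submodule.inclusion (hmono n) x), rfl⟩
    · intro x
      obtain ⟨x, rfl⟩ := Submodule.mkQ_surjective _ x
      obtain ⟨n, hn⟩ := hall x
      exact ⟨n, Submodule.mkQ _ ⟨x, hn⟩, rfl⟩
  exact L3 m (quot_SES β (U 0) (hl 0) (hr 0)) (h2 (m + 1)) (hX m)

end chain

/-! ### matrix bimodules -/

section mat

variable {O : Type} [CommRing O] [Algebra k O] {ι : Type} [Fintype ι] [DecidableEq ι]

/-- the bimodule of matrices with entries in the `O`-module `V`, left action through `α`,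
right action through `β` -/
noncomputable def matAct (α β : A →ₐ[k] Matrix ι ι O) (V : Type) [AddCommGroup V] [Module k V]
    [Module O V] [IsScalarTower k O V] : BiAct k A (ι → ι → V) where
  l := LinearMap.mk₂ k (fun a m i j => ∑ s, (α a) i s • m s j)
    (fun a b m => by
      funext i j
      simp [add_smul, Finset.sum_add_distrib])
    (fun c a m => by
      funext i j
      simp [Finset.smul_sum])
    (fun a m m' => by
      funext i j
      simp [smul_add, Finset.sum_add_distrib])
    (fun c a m => by
      funext i j
      simp only [Pi.smul_apply, Finset.smul_sum]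
      refine Finset.sum_congr rfl fun s _ => ?_
      rw [← algebraMap_smul O c (m s j), ← algebraMap_smul O c (α a i s • m s j), smul_smul,
        smul_smul, mul_comm])
  r := LinearMap.mk₂ k (fun a m i j => ∑ s, (β a) s j • m i s)
    (fun a b m => by
      funext i j
      simp [add_smul, Finset.sum_add_distrib])
    (fun c a m => by
      funext i j
      simp [Finset.smul_sum])
    (fun a m m' => by
      funext i j
      simp [smul_add, Finset.sum_add_distrib])
    (fun c a m => by
      funext i j
      simp only [Pi.smul_apply, Finset.smul_sum]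
      refine Finset.sum_congr rfl fun s _ => ?_
      rw [← algebraMap_smul O c (m i s), ← algebraMap_smul O c (β a s j • m i s), smul_smul,
        smul_smul, mul_comm])
  l_mul a b m := by
    funext i j
    simp only [LinearMap.mk₂_apply, map_mul, Matrix.mul_apply, Finset.sum_smul, Finset.smul_sum,
      smul_smul]
    rw [Finset.sum_comm]
  r_mul a b m := by
    funext i j
    simp only [LinearMap.mk₂_apply, map_mul, Matrix.mul_apply, Finset.sum_smul, Finset.smul_sum,
      smul_smul]
    rw [Finset.sum_comm]
    refine Finset.sum_congr rfl fun s _ => Finset.sum_congr rfl fun t _ => ?_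
    rw [mul_comm]
  comm a b m := by
    funext i j
    simp only [LinearMap.mk₂_apply, Finset.smul_sum, smul_smul]
    rw [Finset.sum_comm]
    refine Finset.sum_congr rfl fun s _ => Finset.sum_congr rfl fun t _ => ?_
    rw [mul_comm]

variable (α β : A →ₐ[k] Matrix ι ι O)

@[simp] theorem matAct_l {V : Type} [AddCommGroup V] [Module k V]
    [Module O V] [IsScalarTower k O V] (a : A) (m : ι → ι → V) (i j : ι) :
    (matAct α β V).l a m i j = ∑ s, (α a) i s • m s j := rfl

@[simp] theorem matAct_r {V : Type} [AddCommGroup V] [Module k V]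
    [Module O V] [IsScalarTower k O V] (a : A) (m : ι → ι → V) (i j : ι) :
    (matAct α β V).r a m i j = ∑ s, (β a) s j • m i s := rfl

end mat

end Run7.h975.Han
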