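import Mathlib
import Pool.Agent.Run7.h975.Han.Hom4

/-!
# Step B for matrix bimodules
-/

set_option autoImplicit false

open scoped TensorProduct

namespace Run7.h975.Han

open Run7.h817.Han Run7.h921.Han

variable {k A : Type} [Field k] [Ring A] [Algebra k A]

section mat

variable {O : Type} [CommRing O] [Algebra k O] {ι : Type} [Fintype ι] [DecidableEq ι]

/-- entrywise application of a linear map -/
def matMap (ι : Type) {V W : Type} [AddCommGroup V] [Module k V] [AddCommGroup W] [Module k W]
    (f : V →ₗ[k] W) : (ι → ι → V) →ₗ[k] (ι → ι → W) where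
  toFun m i j := f (m i j)
  map_add' m m' := by funext i j; simp
  map_smul' c m := by funext i j; simp

omit [Fintype ι] [DecidableEq ι] in
@[simp] theorem matMap_apply {V W : Type} [AddCommGroup V] [Module k V] [AddCommGroup W]
    [Module k W] (f : V →ₗ[k] W) (m : ι → ι → V) (i j : ι) : matMap ι f m i j = f (m i j) := rfl

variable (α β : A →ₐ[k] Matrix ι ι O)

theorem matMap_l {O' : Type} [CommRing O'] [Algebra k O'] (χ : O →ₐ[k] O') {V W : Type}
    [AddCommGroup V] [Module k V] [Module O V] [IsScalarTower k O V]
    [AddCommGroup W] [Module k W] [Module O' W] [IsScalarTower k O' W] (f : V →ₗ[k] W)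
    (hf : ∀ (o : O) v, f (o • v) = χ o • f v) (a : A) (m : ι → ι → V) :
    matMap ι f ((matAct α β V).l a m) =
      (matAct (χ.mapMatrix.comp α) (χ.mapMatrix.comp β) W).l a (matMap ι f m) := by
  funext i j
  simp [hf]

theorem matMap_r {O' : Type} [CommRing O'] [Algebra k O'] (χ : O →ₐ[k] O') {V W : Type}
    [AddCommGroup V] [Module k V] [Module O V] [IsScalarTower k O V]
    [AddCommGroup W] [Module k W] [Module O' W] [IsScalarTower k O' W] (f : V →ₗ[k] W)
    (hf : ∀ (o : O) v, f (o • v) = χ o • f v) (a : A) (m : ι → ι → V) :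
    matMap ι f ((matAct α β V).r a m) =
      (matAct (χ.mapMatrix.comp α) (χ.mapMatrix.comp β) W).r a (matMap ι f m) := by
  funext i j
  simp [hf]

/-- exactness of `V ↦ matAct α β V` -/
theorem mat_SES {O' : Type} [CommRing O'] [Algebra k O'] (χ : O →ₐ[k] O') {V' V W : Type}
    [AddCommGroup V'] [Module k V'] [Module O V'] [IsScalarTower k O V']
    [AddCommGroup V] [Module k V] [Module O V] [IsScalarTower k O V]
    [AddCommGroup W] [Module k W] [Module O' W] [IsScalarTower k O' W]
    (i : V' →ₗ[k] V) (hi : ∀ (o : O) v, i (o • v) = o • i v) (p : V →ₗ[k] W)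
    (hp : ∀ (o : O) v, p (o • v) = χ o • p v) (hinj : Function.Injective i)
    (hsurj : Function.Surjective p) (hex : ∀ x, p x = 0 ↔ ∃ x', i x' = x) :
    SES (matAct α β V') (matAct α β V)
      (matAct (χ.mapMatrix.comp α) (χ.mapMatrix.comp β) W) (matMap ι i) (matMap ι p) where
  inj := by
    intro m m' h
    funext a b
    exact hinj (congrFun (congrFun h a) b)
  surj := by
    intro m
    choose f hf using hsurj
    exact ⟨fun a b => f (m a b), by funext a b; exact hf _⟩
  exact := by
    intro m
    constructor
    · intro h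
      have h1 : ∀ a b, ∃ x', i x' = m a b := fun a b => (hex _).1 (congrFun (congrFun h a) b)
      choose f hf using h1
      exact ⟨f, by funext a b; exact hf a b⟩
    · rintro ⟨m', rfl⟩
      funext a b
      exact (hex _).2 ⟨_, rfl⟩
  i_l := fun a x => by
    have := matMap_l α β (AlgHom.id k O) i hi a x
    rw [this]
    rfl
  i_r := fun a x => by
    have := matMap_r α β (AlgHom.id k O) i hi a x
    rw [this]
    rfl
  p_l := fun a x => matMap_l α β χ p hp a x
  p_r := fun a x => matMap_r α β χ p hp a x

/-- a nonzero finite dimensional module has a character and a corresponding functional -/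
theorem exists_char [IsAlgClosed k] (V : Type) [AddCommGroup V] [Module k V] [Module O V]
    [IsScalarTower k O V] [FiniteDimensional k V] [Nontrivial V] :
    ∃ (χ : O →ₐ[k] k) (q : V →ₗ[k] k), Function.Surjective q ∧
      ∀ (o : O) v, q (o • v) = χ o • q v := by
  have : Module.Finite O V := Module.Finite.of_restrictScalars_finite k O V
  obtain ⟨N, hN⟩ := IsCoatomic.exists_coatom (Submodule O V)
  have : IsSimpleModule O (V ⧸ N) := isSimpleModule_iff_isCoatom.2 hN
  have : Nontrivial (V ⧸ N) := IsSimpleModule.nontrivial O (V ⧸ N)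
  obtain ⟨v, hv⟩ := exists_ne (0 : V ⧸ N)
  let m : Ideal O := LinearMap.ker (LinearMap.toSpanSingleton O (V ⧸ N) v)
  have hmax : m.IsMaximal := IsSimpleModule.ker_toSpanSingleton_isMaximal O hv
  have hprime : m.IsPrime := hmax.isPrime
  have hsur := IsSimpleModule.toSpanSingleton_surjective O hv
  let φ : (O ⧸ m) ≃ₗ[O] V ⧸ N := LinearMap.quotKerEquivOfSurjective _ hsur
  have hφ : ∀ o : O, φ (Ideal.Quotient.mk m o) = o • v := fun o => rfl
  have : FiniteDimensional k (V ⧸ N) :=
    Module.Finite.of_surjective (N.mkQ.restrictScalars k) N.mkQ_surjective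
  have : FiniteDimensional k (O ⧸ m) :=
    Module.Finite.of_surjective (φ.symm.toLinearMap.restrictScalars k) φ.symm.surjective
  have : IsDomain (O ⧸ m) := Ideal.Quotient.isDomain m
  have hb : Function.Bijective (algebraMap k (O ⧸ m)) :=
    IsAlgClosed.algebraMap_bijective_of_isIntegral
  let e : k ≃ₐ[k] (O ⧸ m) := AlgEquiv.ofBijective (Algebra.ofId k (O ⧸ m)) hb
  refine ⟨e.symm.toAlgHom.comp (Ideal.Quotient.mkₐ k m),
    e.symm.toLinearMap ∘ₗ (φ.symm.toLinearMap.restrictScalars k) ∘ₗ (N.mkQ.restrictScalars k),
    ?_, ?_⟩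
  · exact e.symm.surjective.comp (φ.symm.surjective.comp N.mkQ_surjective)
  · intro o w
    show e.symm (φ.symm (N.mkQ (o • w))) = e.symm (Ideal.Quotient.mk m o) • _
    rw [map_smul, map_smul]
    obtain ⟨o', ho'⟩ := Ideal.Quotient.mk_surjective (φ.symm (N.mkQ w))
    show _ = e.symm (Ideal.Quotient.mk m o) • e.symm (φ.symm (N.mkQ w))
    rw [smul_eq_mul, ← map_mul, ← ho', ← map_mul]
    rfl

/-- vanishing for finite dimensional modules from vanishing at points -/
theorem Hv_fd [IsAlgClosed k] (n : ℕ)
    (hpt : ∀ χ : O →ₐ[k] k, Hv n (matAct (χ.mapMatrix.comp α) (χ.mapMatrix.comp β) k)) (d : ℕ) :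
    ∀ (V : Type) [AddCommGroup V] [Module k V] [Module O V] [IsScalarTower k O V]
      [FiniteDimensional k V], Module.finrank k V = d → Hv n (matAct α β V) := by
  induction d with
  | zero =>
    intro V _ _ _ _ _ h
    have : Subsingleton V := Module.finrank_zero_iff.1 h
    exact hv_subsingleton n _
  | succ d ih =>
    intro V _ _ _ _ _ h
    have : Nontrivial V := Module.nontrivial_of_finrank_pos (R := k) (by omega)
    obtain ⟨χ, q, hq, hqo⟩ := exists_char (k := k) (O := O) V
    let N : Submodule O V :=
      { carrier := {v | q v = 0}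
        add_mem' := by
          intro a b ha hb
          show q (a + b) = 0
          rw [map_add, show q a = 0 from ha, show q b = 0 from hb, add_zero]
        zero_mem' := map_zero q
        smul_mem' := by
          intro c v hv
          show q (c • v) = 0
          rw [hqo, show q v = 0 from hv, smul_zero] }
    have hfin : FiniteDimensional k N :=
      Module.Finite.of_injective (N.subtype.restrictScalars k) Subtype.val_injective
    have hrank : Module.finrank k N = d := by
      have h1 := LinearMap.finrank_range_add_finrank_ker q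
      rw [LinearMap.range_eq_top.2 hq, finrank_top, Module.finrank_self, h] at h1
      have h2 : Module.finrank k N = Module.finrank k (LinearMap.ker q) :=
        LinearEquiv.finrank_eq
          { toFun := fun x => ⟨x.1, x.2⟩
            invFun := fun x => ⟨x.1, x.2⟩
            left_inv := fun x => rfl
            right_inv := fun x => rfl
            map_add' := fun x y => rfl
            map_smul' := fun c x => rfl }
      omega
    refine L1 n (mat_SES α β χ (N.subtype.restrictScalars k) (fun o v => rfl) q hqo
      Subtype.val_injective hq ?_) (ih N hrank) (hpt χ)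
    intro x
    constructor
    · intro h
      exact ⟨⟨x, h⟩, rfl⟩
    · rintro ⟨y, rfl⟩
      exact y.2

/-- Step B -/
theorem stepB [IsAlgClosed k] [FiniteDimensional k A] [IsDomain O] (R : Type) [CommRing R]
    [IsDomain R] [IsNoetherianRing R] [Algebra k R] [Algebra R O] [IsScalarTower k R O]
    [Module.Finite R O] (hinj : Function.Injective (algebraMap R O))
    (hR : ∃ ϖ : R, ϖ ≠ 0 ∧ ¬ IsUnit ϖ)
    (hfd : ∀ f : R, f ≠ 0 → FiniteDimensional k (R ⧸ Ideal.span {f})) (n : ℕ)
    (hpt : ∀ χ : O →ₐ[k] k, Hv n (matAct (χ.mapMatrix.comp α) (χ.mapMatrix.comp β) k)) :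
    Hv n (matAct α β O) := by
  have hm : ∀ (f : R) (o : O), f • o = algebraMap R O f * o := fun f o => Algebra.smul_def f o
  refine Hv_fg R hR n (matAct α β O) ?_ ?_ ?_
  · intro a f x
    funext i j
    simp only [matAct_l, Pi.smul_apply, smul_eq_mul, hm]
    rw [Finset.mul_sum]
    refine Finset.sum_congr rfl fun s _ => by ring
  · intro a f x
    funext i j
    simp only [matAct_r, Pi.smul_apply, smul_eq_mul, hm]
    rw [Finset.mul_sum]
    refine Finset.sum_congr rfl fun s _ => by ring
  · intro f hf
    set g : O := algebraMap R O f with hg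
    have hg0 : g ≠ 0 := by
      rw [hg, Ne, map_eq_zero_iff _ hinj]
      exact hf
    let J : Ideal O := Ideal.span {g}
    have hfinR := hfd f hf
    -- `O / g` is finite over `R / f`
    have hfin : FiniteDimensional k (O ⧸ J) := by
      obtain ⟨s, hs⟩ := Module.Finite.exists_fin (R := R) (M := O)
      obtain ⟨y, hy⟩ := hs
      let ψ : (Fin s → R ⧸ Ideal.span {f}) →ₗ[k] O ⧸ J :=
        ∑ t, (Submodule.liftQ ((Ideal.span {f}).restrictScalars k)
          (((Ideal.Quotient.mkₐ k J).toLinearMap ∘ₗ
            ((LinearMap.toSpanSingleton R O (y t)).restrictScalars k))) (by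
              intro r hr
              obtain ⟨c, rfl⟩ := Ideal.mem_span_singleton'.1 hr
              show Ideal.Quotient.mk J ((c * f) • y t) = 0
              rw [Ideal.Quotient.eq_zero_iff_mem, hm, map_mul]
              refine Ideal.mem_span_singleton.2 ⟨algebraMap R O c * y t, by rw [hg]; ring⟩)) ∘ₗ
          (LinearMap.proj t)
      refine Module.Finite.of_surjective ψ ?_
      intro z
      obtain ⟨o, rfl⟩ := Ideal.Quotient.mk_surjective z
      have ho : o ∈ Submodule.span R (Set.range y) := by rw [hy]; trivial
      obtain ⟨c, hc⟩ := (Submodule.mem_span_range_iff_exists_fun R).1 ho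
      refine ⟨fun t => Ideal.Quotient.mk _ (c t), ?_⟩
      simp only [ψ, LinearMap.sum_apply, LinearMap.comp_apply]
      rw [← hc, map_sum]
      rfl
    refine ⟨ι → ι → O ⧸ J, inferInstance, inferInstance, matAct α β (O ⧸ J),
      matMap ι (Ideal.Quotient.mkₐ k J).toLinearMap, ?_,
      Hv_fd α β n hpt _ (O ⧸ J) rfl⟩
    have hs := mat_SES α β (AlgHom.id k O) (V' := O) (V := O) (W := O ⧸ J)
      (mulBy k O g) (fun o v => by simp only [mulBy_apply, smul_eq_mul]; ring)
      (Ideal.Quotient.mkₐ k J).toLinearMap (fun o v => by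
        show Ideal.Quotient.mk J (o • v) = _
        rfl)
      (by
        intro a b h
        exact mul_left_cancel₀ hg0 h)
      Ideal.Quotient.mk_surjective
      (by
        intro x
        show Ideal.Quotient.mk J x = 0 ↔ _
        rw [Ideal.Quotient.eq_zero_iff_mem, Ideal.mem_span_singleton]
        constructor
        · rintro ⟨c, rfl⟩
          exact ⟨c, rfl⟩
        · rintro ⟨c, rfl⟩
          exact ⟨c, rfl⟩)
    have e1 : matMap ι (mulBy k O g) = mulBy k (ι → ι → O) f := by
      apply LinearMap.ext
      intro m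
      funext i j
      simp only [matMap_apply, mulBy_apply, Pi.smul_apply, smul_eq_mul, hm, hg]
    rw [← e1]
    exact hs

end mat

end Run7.h975.Han
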