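import Mathlib
import Pool.Agent.Run7.h975.Han.Hom5
import Pool.Agent.Run7.h258.Han.OL

/-!
# Step B for the matrices over `O k`
-/

set_option autoImplicit false

open scoped TensorProduct Polynomial

namespace Run7.h975.Han

open Run7.h817.Han Run7.h921.Han

open Run7.h258.Han (rho vx vx' lam ox ox' oy oy' evO)

variable {k : Type} [Field k]

theorem rho_map {R S : Type} [CommRing R] [Algebra k R] [CommRing S] [Algebra k S]
    (χ : R →ₐ[k] S) (p : Fin 3 → R) (b : Run7.h258.Han.B k) :
    χ.mapMatrix (rho k p b) = rho k (fun i => χ (p i)) b := by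
  rw [Run7.h258.Han.rho_apply, Run7.h258.Han.rho_apply]
  ext i j
  fin_cases i <;> fin_cases j <;>
    simp [AlgHom.mapMatrix_apply, Run7.h258.Han.le, Run7.h258.Han.qe]

/-- the evaluation representation of `A` -/
noncomputable def rr {R : Type} [CommRing R] [Algebra k R] (v : Fin 3 → R) :
    Run7.h258.Han.A k →ₐ[k] Matrix (Fin 3) (Fin 3) R :=
  (rho k v).comp (Run7.h258.Han.A.toB k)

theorem rr_map {R S : Type} [CommRing R] [Algebra k R] [CommRing S] [Algebra k S]
    (χ : R →ₐ[k] S) (p : Fin 3 → R) :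
    χ.mapMatrix.comp (rr (k := k) p) = rr (k := k) (fun i => χ (p i)) := by
  apply AlgHom.ext
  intro a
  exact rho_map χ p (Run7.h258.Han.A.bb a)

/-- comparison of the two definitions of matrix bimodules -/
theorem Hv_mat_iff (n : ℕ) {R : Type} [CommRing R] [Algebra k R] (v v' : Fin 3 → R) :
    Hv n (matAct (rr (k := k) v) (rr v') R) ↔ Hv n (Run7.h258.Han.matAct (k := k) v v') := by
  have hl : ∀ (a : Run7.h258.Han.A k) (m : Fin 3 → Fin 3 → R),
      Matrix.ofLinearEquiv k ((matAct (rr (k := k) v) (rr v') R).l a m) =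
        (Run7.h258.Han.matAct (k := k) v v').l a (Matrix.ofLinearEquiv k m) := by
    intro a m
    ext i j
    rw [Run7.h258.Han.matAct_l, Matrix.mul_apply]
    rfl
  have hr : ∀ (a : Run7.h258.Han.A k) (m : Fin 3 → Fin 3 → R),
      Matrix.ofLinearEquiv k ((matAct (rr (k := k) v) (rr v') R).r a m) =
        (Run7.h258.Han.matAct (k := k) v v').r a (Matrix.ofLinearEquiv k m) := by
    intro a m
    ext i j
    rw [Run7.h258.Han.matAct_r, Matrix.mul_apply]
    show ∑ s : Fin 3, (rr (k := k) v' a) s j • m i s = _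
    refine Finset.sum_congr rfl fun s _ => ?_
    rw [smul_eq_mul, mul_comm]
    rfl
  constructor
  · exact Hv_congr n _ _ (Matrix.ofLinearEquiv k) hl hr
  · refine Hv_congr n _ _ (Matrix.ofLinearEquiv k).symm ?_ ?_
    · intro a m
      apply (Matrix.ofLinearEquiv k).injective
      rw [hl, LinearEquiv.apply_symm_apply, LinearEquiv.apply_symm_apply]
    · intro a m
      apply (Matrix.ofLinearEquiv k).injective
      rw [hr, LinearEquiv.apply_symm_apply, LinearEquiv.apply_symm_apply]

theorem chi_lam_ox (χ : Run7.h258.Han.O k →ₐ[k] k) :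
    χ (ox k) ^ 2 = χ (lam k) ^ 2 * χ (ox k) - 1 + 2 * χ (lam k) := by
  have h := congrArg χ (Run7.h258.Han.ox_sq k)
  rw [two_mul] at h
  simp only [map_add, map_sub, map_mul, map_one, map_pow] at h
  rw [h, two_mul]

theorem chi_eq (χ : Run7.h258.Han.O k →ₐ[k] k) :
    χ = evO (χ (lam k)) (χ (ox k)) (chi_lam_ox χ) := by
  apply AlgHom.ext
  intro f
  have h1 : ∀ p : k[X], χ (algebraMap k[X] (Run7.h258.Han.O k) p) = p.eval (χ (lam k)) := by
    intro p
    have h2 : χ.comp (IsScalarTower.toAlgHom k k[X] (Run7.h258.Han.O k)) =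
        Polynomial.aeval (χ (lam k)) := by
      apply Polynomial.algHom_ext
      simp only [AlgHom.comp_apply, IsScalarTower.coe_toAlgHom', Polynomial.aeval_X]
      rfl
    have h3 : χ.comp (IsScalarTower.toAlgHom k k[X] (Run7.h258.Han.O k)) p =
        Polynomial.aeval (χ (lam k)) p := by rw [h2]
    rw [Polynomial.coe_aeval_eq_eval] at h3
    exact h3
  have h4 : f = algebraMap k[X] (Run7.h258.Han.O k) f.re +
      algebraMap k[X] (Run7.h258.Han.O k) f.im * ox k := by
    apply Run7.h258.Han.O.ext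
    · simp [ox]
    · simp [ox]
  conv_lhs => rw [h4]
  rw [map_add, map_mul, h1, h1]
  rfl

/-- Step B -/
theorem STEPB [IsAlgClosed k] [CharZero k] (n : ℕ)
    (h : ∀ (t x0 : k) (hx : x0 ^ 2 = t ^ 2 * x0 - 1 + 2 * t),
      Hv n (Run7.h258.Han.matAct (k := k) (fun i => evO t x0 hx (vx k i))
        (fun i => evO t x0 hx (vx' k i)))) :
    Hv n (Run7.h258.Han.matAct (k := k) (vx k) (vx' k)) := by
  rw [← Hv_mat_iff]
  refine stepB (rr (k := k) (vx k)) (rr (k := k) (vx' k)) k[X] ?_ ⟨Polynomial.X, ?_, ?_⟩ ?_ n ?_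
  · intro a b hab
    have := congrArg Run7.h258.Han.O.re hab
    simpa using this
  · exact Polynomial.X_ne_zero
  · exact Polynomial.not_isUnit_X
  · intro f hf
    exact (AdjoinRoot.powerBasis hf).finite
  · intro χ
    rw [rr_map, rr_map, Hv_mat_iff]
    have h1 := h _ _ (chi_lam_ox χ)
    rw [← chi_eq χ] at h1
    exact h1

end Run7.h975.Han
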