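import Mathlib
import Pool.Agent.Run7.h975.Han.StepB

/-!
# Step C: from the matrices over `O k` to `M`
-/

set_option autoImplicit false

open scoped TensorProduct Polynomial

namespace Run7.h975.Han

open Run7.h817.Han Run7.h921.Han

open Run7.h258.Han (rho vx vx' lam ox ox' oy oy' evO)

variable {k : Type} [Field k]

/-- filtration by pole order at a point together with leading coefficients -/
structure Lead (P : ℕ → Submodule k (Run7.h258.Han.O k)) (c : ℕ → Run7.h258.Han.O k → k) : Prop where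
  add : ∀ {n f g}, f ∈ P n → g ∈ P n → c n (f + g) = c n f + c n g
  smul : ∀ {n} (t : k) {f}, f ∈ P n → c n (t • f) = t * c n f
  mul : ∀ {m n f g}, f ∈ P m → g ∈ P n → c (m + n) (f * g) = c m f * c n g
  mem : ∀ {m n f g}, f ∈ P m → g ∈ P n → f * g ∈ P (m + n)
  mono : ∀ {m n f}, m ≤ n → f ∈ P m → f ∈ P n
  zero_iff : ∀ {n f}, f ∈ P (n + 1) → (c (n + 1) f = 0 ↔ f ∈ P n)

namespace Lead

variable {P : ℕ → Submodule k (Run7.h258.Han.O k)} {c : ℕ → Run7.h258.Han.O k → k} (H : Lead P c)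

include H

theorem zero (n : ℕ) : c n 0 = 0 := by
  have := H.smul (n := n) 0 (zero_mem (P n))
  simpa using this

omit H in
theorem le_mem {v : Fin 3 → Run7.h258.Han.O k} {n : ℕ} (hv : ∀ i, v i ∈ P n) (s : Fin 3 → k) :
    Run7.h258.Han.le k s v ∈ P n :=
  add_mem (add_mem (Submodule.smul_mem _ _ (hv 0)) (Submodule.smul_mem _ _ (hv 1)))
    (Submodule.smul_mem _ _ (hv 2))

theorem qe_mem {v : Fin 3 → Run7.h258.Han.O k} {n : ℕ} (hv : ∀ i, v i ∈ P n) (w : Fin 6 → k) :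
    Run7.h258.Han.qe k w v ∈ P (n + n) := by
  have h : ∀ i j, v i * v j ∈ P (n + n) := fun i j => H.mem (hv i) (hv j)
  exact add_mem (add_mem (add_mem (add_mem (add_mem (Submodule.smul_mem _ _ (h _ _))
    (Submodule.smul_mem _ _ (h _ _))) (Submodule.smul_mem _ _ (h _ _)))
    (Submodule.smul_mem _ _ (h _ _))) (Submodule.smul_mem _ _ (h _ _)))
    (Submodule.smul_mem _ _ (h _ _))

theorem c_le {v : Fin 3 → Run7.h258.Han.O k} {n : ℕ} (hv : ∀ i, v i ∈ P n) (s : Fin 3 → k) :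
    c n (Run7.h258.Han.le k s v) = Run7.h258.Han.le k s (fun i => c n (v i)) := by
  have h : ∀ i, s i • v i ∈ P n := fun i => Submodule.smul_mem _ _ (hv i)
  unfold Run7.h258.Han.le
  rw [H.add (add_mem (h 0) (h 1)) (h 2), H.add (h 0) (h 1), H.smul _ (hv 0), H.smul _ (hv 1),
    H.smul _ (hv 2)]
  simp only [smul_eq_mul]

theorem c_qe {v : Fin 3 → Run7.h258.Han.O k} {n : ℕ} (hv : ∀ i, v i ∈ P n) (w : Fin 6 → k) :
    c (n + n) (Run7.h258.Han.qe k w v) = Run7.h258.Han.qe k w (fun i => c n (v i)) := by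
  have h0 : ∀ i j, v i * v j ∈ P (n + n) := fun i j => H.mem (hv i) (hv j)
  have h : ∀ t i j, w t • (v i * v j) ∈ P (n + n) := fun t i j => Submodule.smul_mem _ _ (h0 i j)
  unfold Run7.h258.Han.qe
  rw [H.add (add_mem (add_mem (add_mem (add_mem (h _ _ _) (h _ _ _)) (h _ _ _)) (h _ _ _))
      (h _ _ _)) (h _ _ _),
    H.add (add_mem (add_mem (add_mem (h _ _ _) (h _ _ _)) (h _ _ _)) (h _ _ _)) (h _ _ _),
    H.add (add_mem (add_mem (h _ _ _) (h _ _ _)) (h _ _ _)) (h _ _ _),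
    H.add (add_mem (h _ _ _) (h _ _ _)) (h _ _ _),
    H.add (h _ _ _) (h _ _ _)]
  rw [H.smul _ (h0 _ _), H.smul _ (h0 _ _), H.smul _ (h0 _ _), H.smul _ (h0 _ _),
    H.smul _ (h0 _ _), H.smul _ (h0 _ _)]
  rw [H.mul (hv 0) (hv 0), H.mul (hv 0) (hv 1), H.mul (hv 0) (hv 2), H.mul (hv 1) (hv 1),
    H.mul (hv 1) (hv 2), H.mul (hv 2) (hv 2)]
  simp only [smul_eq_mul]

/-- multiplication by the entries of `rho v b`, all `v i` of order `≤ n` -/
theorem rho_mem {v : Fin 3 → Run7.h258.Han.O k} {n : ℕ} (hv : ∀ i, v i ∈ P n)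
    (i j : Fin 3) (b : Run7.h258.Han.B k) (m : ℕ) {f : Run7.h258.Han.O k} (hf : f ∈ P m) :
    rho k v b i j * f ∈ P (m + n * (j - i : ℕ)) := by
  have h1 : ∀ s : Fin 3 → k, Run7.h258.Han.le k s v * f ∈ P (m + n) := by
    intro s
    have := H.mem (le_mem hv s) hf
    rwa [add_comm] at this
  have h2 : ∀ s : Fin 6 → k, Run7.h258.Han.qe k s v * f ∈ P (m + n * 2) := by
    intro s
    have := H.mem (H.qe_mem hv s) hf
    rwa [add_comm, ← two_mul, mul_comm] at this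
  have h0 : ∀ t : k, t • f ∈ P m := fun t => Submodule.smul_mem _ _ hf
  rw [Run7.h258.Han.rho_apply]
  fin_cases i <;> fin_cases j <;> simp <;> first | exact h0 _ | exact h1 _ | exact h2 _

/-- leading coefficients of products with the entries of `rho v b` -/
theorem c_rho {v : Fin 3 → Run7.h258.Han.O k} {n : ℕ} (hv : ∀ i, v i ∈ P n)
    (i j : Fin 3) (b : Run7.h258.Han.B k) (m : ℕ) {f : Run7.h258.Han.O k} (hf : f ∈ P m) :
    c (m + n * (j - i : ℕ)) (rho k v b i j * f) =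
      rho k (fun i => c n (v i)) b i j * c m f := by
  have h1 : ∀ s : Fin 3 → k, c (m + n) (Run7.h258.Han.le k s v * f) =
      Run7.h258.Han.le k s (fun i => c n (v i)) * c m f := by
    intro s
    rw [add_comm, H.mul (le_mem hv s) hf, H.c_le hv]
  have h2 : ∀ s : Fin 6 → k, c (m + n * 2) (Run7.h258.Han.qe k s v * f) =
      Run7.h258.Han.qe k s (fun i => c n (v i)) * c m f := by
    intro s
    rw [add_comm, mul_comm n 2, two_mul, H.mul (H.qe_mem hv s) hf, H.c_qe hv]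
  have h0 : ∀ t : k, c m (t • f) = t * c m f := fun t => H.smul t hf
  rw [Run7.h258.Han.rho_apply, Run7.h258.Han.rho_apply]
  fin_cases i <;> fin_cases j <;> simp <;>
    first | exact h0 _ | exact h1 _ | exact h2 _ | exact H.zero _

omit H in
theorem rho_lower {R : Type} [CommRing R] [Algebra k R] (v : Fin 3 → R)
    (b : Run7.h258.Han.B k) {i s : Fin 3} (h : s < i) : rho k v b i s = 0 := by
  rw [Run7.h258.Han.rho_apply]
  fin_cases i <;> fin_cases s <;> simp at h ⊢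

theorem hi_l {v : Fin 3 → Run7.h258.Han.O k} (hv : ∀ i, v i ∈ P 3) (i s : Fin 3) (b : Run7.h258.Han.B k)
    (N : ℕ) {f : Run7.h258.Han.O k} (hf : f ∈ P (3 * (2 - (s : ℕ)) + N)) :
    rho k v b i s * f ∈ P (3 * (2 - (i : ℕ)) + N) ∧
    c (3 * (2 - (i : ℕ)) + N) (rho k v b i s * f) =
      rho k (fun i => c 3 (v i)) b i s * c (3 * (2 - (s : ℕ)) + N) f := by
  by_cases h : i ≤ s
  · have e : 3 * (2 - (i : ℕ)) + N = 3 * (2 - (s : ℕ)) + N + 3 * (s - i : ℕ) := by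
      have : (i : ℕ) ≤ s := h
      omega
    rw [e]
    exact ⟨H.rho_mem hv i s b _ hf, H.c_rho hv i s b _ hf⟩
  · have h' : s < i := not_le.1 h
    rw [rho_lower v b h', rho_lower _ b h', zero_mul, zero_mul]
    exact ⟨zero_mem _, H.zero _⟩

theorem hi_r {v : Fin 3 → Run7.h258.Han.O k} (hv : ∀ i, v i ∈ P 3) (s j : Fin 3) (b : Run7.h258.Han.B k)
    (N : ℕ) {f : Run7.h258.Han.O k} (hf : f ∈ P (3 * (s : ℕ) + N)) :
    rho k v b s j * f ∈ P (3 * (j : ℕ) + N) ∧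
    c (3 * (j : ℕ) + N) (rho k v b s j * f) =
      rho k (fun i => c 3 (v i)) b s j * c (3 * (s : ℕ) + N) f := by
  by_cases h : s ≤ j
  · have e : 3 * (j : ℕ) + N = 3 * (s : ℕ) + N + 3 * (j - s : ℕ) := by
      have : (s : ℕ) ≤ j := h
      omega
    rw [e]
    exact ⟨H.rho_mem hv s j b _ hf, H.c_rho hv s j b _ hf⟩
  · have h' : j < s := not_le.1 h
    rw [rho_lower v b h', rho_lower _ b h', zero_mul, zero_mul]
    exact ⟨zero_mem _, H.zero _⟩

theorem lo {v : Fin 3 → Run7.h258.Han.O k} (hv : ∀ i, v i ∈ P 0) (i s : Fin 3) (b : Run7.h258.Han.B k)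
    (N : ℕ) {f : Run7.h258.Han.O k} (hf : f ∈ P N) :
    rho k v b i s * f ∈ P N ∧
    c N (rho k v b i s * f) = rho k (fun i => c 0 (v i)) b i s * c N f := by
  have h1 := H.rho_mem hv i s b N hf
  have h2 := H.c_rho hv i s b N hf
  rw [zero_mul, add_zero] at h1 h2
  exact ⟨h1, h2⟩

theorem sum3 {n : ℕ} {f : Fin 3 → Run7.h258.Han.O k} (hf : ∀ i, f i ∈ P n) :
    c n (∑ s, f s) = ∑ s, c n (f s) := by
  rw [Fin.sum_univ_three, Fin.sum_univ_three, H.add (add_mem (hf 0) (hf 1)) (hf 2),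
    H.add (hf 0) (hf 1)]

end Lead

/-! ### the two filtrations -/

/-- pole order at infinity -/
noncomputable def PI (k : Type) [Field k] (n : ℕ) : Submodule k (Run7.h258.Han.O k) :=
  (Run7.h258.Han.Lp k n).comap (Run7.h258.Han.tau k).toLinearMap

theorem mem_PI {n : ℕ} {f : Run7.h258.Han.O k} : f ∈ PI k n ↔ Run7.h258.Han.tau k f ∈ Run7.h258.Han.Lp k n :=
  Iff.rfl

theorem mem_L {m n : ℕ} {f : Run7.h258.Han.O k} :
    f ∈ Run7.h258.Han.L k m n ↔ f ∈ PI k m ∧ f ∈ Run7.h258.Han.Lp k n := Iff.rfl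

theorem leadI [CharZero k] : Lead (PI k) (Run7.h258.Han.lcI (k := k)) where
  add := fun hf hg => Run7.h258.Han.lcI_add hf hg
  smul := fun t _ hf => Run7.h258.Han.lcI_smul t hf
  mul := fun hf hg => Run7.h258.Han.lcI_mul hf hg
  mem := fun {m n f g} hf hg => by
    rw [mem_PI] at hf hg ⊢
    rw [map_mul]
    exact Run7.h258.Han.Lp_mul hf hg
  mono := fun h hf => Run7.h258.Han.Lp_mono h hf
  zero_iff := fun hf => Run7.h258.Han.lcI_eq_zero_iff hf

theorem leadP [CharZero k] : Lead (Run7.h258.Han.Lp k) (Run7.h258.Han.lc k) where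
  add := fun hf hg => Run7.h258.Han.lc_add hf hg
  smul := fun t _ hf => Run7.h258.Han.lc_smul t hf
  mul := fun hf hg => Run7.h258.Han.lc_mul hf hg
  mem := fun hf hg => Run7.h258.Han.Lp_mul hf hg
  mono := fun h hf => Run7.h258.Han.Lp_mono h hf
  zero_iff := fun hf => Run7.h258.Han.lc_eq_zero_iff hf

theorem vx_PI (i : Fin 3) : vx k i ∈ PI k 3 := (mem_L.1 (Run7.h258.Han.vx_mem_L i)).1
theorem vx_Lp (i : Fin 3) : vx k i ∈ Run7.h258.Han.Lp k 0 :=
  (mem_L.1 (Run7.h258.Han.vx_mem_L i)).2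
theorem vx'_PI (i : Fin 3) : vx' k i ∈ PI k 0 := (mem_L.1 (Run7.h258.Han.vx'_mem_L i)).1
theorem vx'_Lp (i : Fin 3) : vx' k i ∈ Run7.h258.Han.Lp k 3 :=
  (mem_L.1 (Run7.h258.Han.vx'_mem_L i)).2

theorem le_single (v : Fin 3 → Run7.h258.Han.O k) (i : Fin 3) :
    Run7.h258.Han.le k (Pi.single i 1) v = v i := by
  unfold Run7.h258.Han.le
  fin_cases i <;> simp

theorem lcI_vx [CharZero k] : (fun i => Run7.h258.Han.lcI 3 (vx k i)) = ![0, 0, -8] := by
  funext i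
  rw [← le_single (vx k) i, Run7.h258.Han.lcI_le_vx]
  fin_cases i <;> simp

theorem lcI_vx' [CharZero k] : (fun i => Run7.h258.Han.lcI 0 (vx' k i)) = ![1, 0, 1] := by
  funext i
  rw [← le_single (vx' k) i, Run7.h258.Han.lcI_le_vx']
  fin_cases i <;> simp

theorem lc_vx [CharZero k] : (fun i => Run7.h258.Han.lc k 0 (vx k i)) = ![1, 0, -1] := by
  funext i
  rw [← le_single (vx k) i, Run7.h258.Han.lc_le_vx]
  fin_cases i <;> simp

theorem lc_vx' [CharZero k] : (fun i => Run7.h258.Han.lc k 3 (vx' k i)) = ![0, 0, 8] := by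
  funext i
  rw [← le_single (vx' k) i, Run7.h258.Han.lc_le_vx']
  fin_cases i <;> simp

theorem rho_scale_l (κ : k) (b : Run7.h258.Han.B k) (i s : Fin 3) :
    κ ^ (i : ℕ) * rho k ![0, 0, κ] b i s = rho k ![0, 0, 1] b i s * κ ^ (s : ℕ) := by
  rw [Run7.h258.Han.rho_apply, Run7.h258.Han.rho_apply]
  fin_cases i <;> fin_cases s <;> simp [Run7.h258.Han.le, Run7.h258.Han.qe] <;>
    first | ring1 | (left; ring1)

theorem rho_scale_r (κ : k) (b : Run7.h258.Han.B k) (s j : Fin 3) :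
    κ ^ (2 - (j : ℕ)) * rho k ![0, 0, κ] b s j = rho k ![0, 0, 1] b s j * κ ^ (2 - (s : ℕ)) := by
  rw [Run7.h258.Han.rho_apply, Run7.h258.Han.rho_apply]
  fin_cases s <;> fin_cases j <;> simp [Run7.h258.Han.le, Run7.h258.Han.qe] <;>
    first | ring1 | (left; ring1)

/-! ### the chain of bimodules -/

/-- matrices with `(i,j)` entry in `L (3*(2-i)+1+a) (3*j+1+b)` -/
noncomputable def MM (k : Type) [Field k] (a b : ℕ) :
    Submodule k (Matrix (Fin 3) (Fin 3) (Run7.h258.Han.O k)) where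
  carrier := {m | ∀ i j : Fin 3,
    m i j ∈ Run7.h258.Han.L k (3 * (2 - (i : ℕ)) + 1 + a) (3 * (j : ℕ) + 1 + b)}
  add_mem' := fun h h' i j => add_mem (h i j) (h' i j)
  zero_mem' := fun _ _ => zero_mem _
  smul_mem' := fun c _ h i j => Submodule.smul_mem _ c (h i j)

theorem mem_MM {a b : ℕ} {m : Matrix (Fin 3) (Fin 3) (Run7.h258.Han.O k)} : m ∈ MM k a b ↔
    ∀ i j : Fin 3, m i j ∈ PI k (3 * (2 - (i : ℕ)) + (1 + a)) ∧
      m i j ∈ Run7.h258.Han.Lp k (3 * (j : ℕ) + (1 + b)) := by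
  simp only [← add_assoc]
  exact Iff.rfl

theorem MM_eq (N : ℕ) : MM k N N = Run7.h258.Han.MN k N := rfl

theorem MM_l [CharZero k] {a b : ℕ} (x : Run7.h258.Han.B k) {m : Matrix (Fin 3) (Fin 3) (Run7.h258.Han.O k)}
    (hm : m ∈ MM k a b) : rho k (vx k) x * m ∈ MM k a b := by
  rw [mem_MM] at hm ⊢
  intro i j
  rw [Matrix.mul_apply]
  exact ⟨sum_mem fun s _ => (leadI.hi_l vx_PI i s x (1 + a) (hm s j).1).1,
    sum_mem fun s _ => (leadP.lo vx_Lp i s x _ (hm s j).2).1⟩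

theorem MM_r [CharZero k] {a b : ℕ} (x : Run7.h258.Han.B k) {m : Matrix (Fin 3) (Fin 3) (Run7.h258.Han.O k)}
    (hm : m ∈ MM k a b) : m * rho k (vx' k) x ∈ MM k a b := by
  rw [mem_MM] at hm ⊢
  intro i j
  rw [Matrix.mul_apply]
  simp only [mul_comm (m i _)]
  exact ⟨sum_mem fun s _ => (leadI.lo vx'_PI s j x _ (hm i s).1).1,
    sum_mem fun s _ => (leadP.hi_r vx'_Lp s j x (1 + b) (hm i s).2).1⟩

theorem MM_mono {a b a' b' : ℕ} (h : a ≤ a') (h' : b ≤ b') : MM k a b ≤ MM k a' b' := by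
  intro m hm i j
  exact Run7.h258.Han.L_mono (by omega) (by omega) (hm i j)

/-- leading coefficients at infinity -/
noncomputable def qI (k : Type) [Field k] [CharZero k] (a b : ℕ) :
    MM k (a + 1) b →ₗ[k] Matrix (Fin 3) (Fin 3) k where
  toFun m := Matrix.of fun i j => (-8) ^ (i : ℕ) *
    Run7.h258.Han.lcI (3 * (2 - (i : ℕ)) + (1 + (a + 1))) (m.1 i j)
  map_add' m m' := by
    ext i j
    show _ * Run7.h258.Han.lcI _ (m.1 i j + m'.1 i j) = _
    rw [leadI.add (mem_MM.1 m.2 i j).1 (mem_MM.1 m'.2 i j).1, mul_add]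
    rfl
  map_smul' c m := by
    ext i j
    show _ * Run7.h258.Han.lcI _ (c • m.1 i j) = _
    rw [leadI.smul c (mem_MM.1 m.2 i j).1]
    simp only [Matrix.smul_apply, Matrix.of_apply, RingHom.id_apply, smul_eq_mul]
    ring

/-- leading coefficients at `-P` -/
noncomputable def qP (k : Type) [Field k] [CharZero k] (a b : ℕ) :
    MM k a (b + 1) →ₗ[k] Matrix (Fin 3) (Fin 3) k where
  toFun m := Matrix.of fun i j => 8 ^ (2 - (j : ℕ)) *
    Run7.h258.Han.lc k (3 * (j : ℕ) + (1 + (b + 1))) (m.1 i j)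
  map_add' m m' := by
    ext i j
    show _ * Run7.h258.Han.lc k _ (m.1 i j + m'.1 i j) = _
    rw [leadP.add (mem_MM.1 m.2 i j).2 (mem_MM.1 m'.2 i j).2, mul_add]
    rfl
  map_smul' c m := by
    ext i j
    show _ * Run7.h258.Han.lc k _ (c • m.1 i j) = _
    rw [leadP.smul c (mem_MM.1 m.2 i j).2]
    simp only [Matrix.smul_apply, Matrix.of_apply, RingHom.id_apply, smul_eq_mul]
    ring

section kernels

variable [CharZero k]

theorem qI_apply (a b : ℕ) (m : MM k (a + 1) b) (i j : Fin 3) :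
    qI k a b m i j = (-8) ^ (i : ℕ) *
      Run7.h258.Han.lcI (3 * (2 - (i : ℕ)) + (1 + (a + 1))) (m.1 i j) := rfl

theorem qP_apply (a b : ℕ) (m : MM k a (b + 1)) (i j : Fin 3) :
    qP k a b m i j = 8 ^ (2 - (j : ℕ)) *
      Run7.h258.Han.lc k (3 * (j : ℕ) + (1 + (b + 1))) (m.1 i j) := rfl

theorem qI_ker (a b : ℕ) (m : MM k (a + 1) b) : qI k a b m = 0 ↔ m.1 ∈ MM k a b := by
  rw [mem_MM]
  have h8 : ∀ i : ℕ, ((-8 : k)) ^ i ≠ 0 := fun i => pow_ne_zero _ (by norm_num)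
  constructor
  · intro h i j
    refine ⟨?_, (mem_MM.1 m.2 i j).2⟩
    have h1 : qI k a b m i j = 0 := by rw [h]; rfl
    rw [qI_apply] at h1
    have h2 := (mul_eq_zero.1 h1).resolve_left (h8 i)
    exact (leadI.zero_iff (mem_MM.1 m.2 i j).1).1 h2
  · intro h
    ext i j
    rw [qI_apply, Matrix.zero_apply]
    have h2 := (leadI.zero_iff (n := 3 * (2 - (i : ℕ)) + (1 + a)) (mem_MM.1 m.2 i j).1).2 (h i j).1
    exact mul_eq_zero_of_right _ h2

theorem qP_ker (a b : ℕ) (m : MM k a (b + 1)) : qP k a b m = 0 ↔ m.1 ∈ MM k a b := by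
  rw [mem_MM]
  have h8 : ∀ i : ℕ, ((8 : k)) ^ i ≠ 0 := fun i => pow_ne_zero _ (by norm_num)
  constructor
  · intro h i j
    refine ⟨(mem_MM.1 m.2 i j).1, ?_⟩
    have h1 : qP k a b m i j = 0 := by rw [h]; rfl
    rw [qP_apply] at h1
    have h2 := (mul_eq_zero.1 h1).resolve_left (h8 _)
    exact (leadP.zero_iff (mem_MM.1 m.2 i j).2).1 h2
  · intro h
    ext i j
    rw [qP_apply, Matrix.zero_apply]
    have h2 := (leadP.zero_iff (n := 3 * (j : ℕ) + (1 + b)) (mem_MM.1 m.2 i j).2).2 (h i j).2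
    exact mul_eq_zero_of_right _ h2

theorem qI_surj (a b : ℕ) : Function.Surjective (qI k a b) := by
  intro m
  have h8 : ∀ i : ℕ, ((-8 : k)) ^ i ≠ 0 := fun i => pow_ne_zero _ (by norm_num)
  have h : ∀ i j : Fin 3, ∃ f ∈ Run7.h258.Han.L k (3 * (2 - (i : ℕ)) + 1 + (a + 1))
      (3 * (j : ℕ) + 1 + b), Run7.h258.Han.lcI (3 * (2 - (i : ℕ)) + 1 + (a + 1)) f =
        m i j * ((-8 : k) ^ (i : ℕ))⁻¹ := fun i j =>
    Run7.h258.Han.exists_lcI (by omega) (by omega) _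
  choose f hf hc using h
  refine ⟨⟨Matrix.of f, fun i j => hf i j⟩, ?_⟩
  ext i j
  rw [qI_apply, ← add_assoc]
  show _ * Run7.h258.Han.lcI _ (f i j) = _
  rw [hc, mul_comm, mul_assoc, inv_mul_cancel₀ (h8 _), mul_one]

theorem qP_surj (a b : ℕ) : Function.Surjective (qP k a b) := by
  intro m
  have h8 : ∀ i : ℕ, ((8 : k)) ^ i ≠ 0 := fun i => pow_ne_zero _ (by norm_num)
  have h : ∀ i j : Fin 3, ∃ f ∈ Run7.h258.Han.L k (3 * (2 - (i : ℕ)) + 1 + a)
      (3 * (j : ℕ) + 1 + (b + 1)), Run7.h258.Han.lc k (3 * (j : ℕ) + 1 + (b + 1)) f =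
        m i j * ((8 : k) ^ (2 - (j : ℕ)))⁻¹ := fun i j =>
    Run7.h258.Han.exists_lc (by omega) (by omega) _
  choose f hf hc using h
  refine ⟨⟨Matrix.of f, fun i j => hf i j⟩, ?_⟩
  ext i j
  rw [qP_apply, ← add_assoc]
  show _ * Run7.h258.Han.lc k _ (f i j) = _
  rw [hc, mul_comm, mul_assoc, inv_mul_cancel₀ (h8 _), mul_one]

theorem qI_l (a b : ℕ) (x : Run7.h258.Han.B k) (m m' : MM k (a + 1) b)
    (h : m'.1 = rho k (vx k) x * m.1) :
    qI k a b m' = rho k ![0, 0, 1] x * qI k a b m := by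
  ext i j
  rw [qI_apply, h, Matrix.mul_apply, Matrix.mul_apply, leadI.sum3 fun s =>
    (leadI.hi_l vx_PI i s x (1 + (a + 1)) (mem_MM.1 m.2 s j).1).1, Finset.mul_sum]
  refine Finset.sum_congr rfl fun s _ => ?_
  rw [(leadI.hi_l vx_PI i s x (1 + (a + 1)) (mem_MM.1 m.2 s j).1).2, lcI_vx, qI_apply, ← mul_assoc,
    rho_scale_l, mul_assoc]

theorem qI_r (a b : ℕ) (x : Run7.h258.Han.B k) (m m' : MM k (a + 1) b)
    (h : m'.1 = m.1 * rho k (vx' k) x) :
    qI k a b m' = qI k a b m * rho k ![1, 0, 1] x := by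
  ext i j
  rw [qI_apply, h, Matrix.mul_apply, Matrix.mul_apply]
  simp only [mul_comm (m.1 i _)]
  rw [leadI.sum3 fun s =>
    (leadI.lo vx'_PI s j x _ (mem_MM.1 m.2 i s).1).1, Finset.mul_sum]
  refine Finset.sum_congr rfl fun s _ => ?_
  rw [(leadI.lo vx'_PI s j x _ (mem_MM.1 m.2 i s).1).2, lcI_vx', qI_apply]
  ring

theorem qP_l (a b : ℕ) (x : Run7.h258.Han.B k) (m m' : MM k a (b + 1))
    (h : m'.1 = rho k (vx k) x * m.1) :
    qP k a b m' = rho k ![1, 0, -1] x * qP k a b m := by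
  ext i j
  rw [qP_apply, h, Matrix.mul_apply, Matrix.mul_apply, leadP.sum3 fun s =>
    (leadP.lo vx_Lp i s x _ (mem_MM.1 m.2 s j).2).1, Finset.mul_sum]
  refine Finset.sum_congr rfl fun s _ => ?_
  rw [(leadP.lo vx_Lp i s x _ (mem_MM.1 m.2 s j).2).2, lc_vx, qP_apply]
  ring

theorem qP_r (a b : ℕ) (x : Run7.h258.Han.B k) (m m' : MM k a (b + 1))
    (h : m'.1 = m.1 * rho k (vx' k) x) :
    qP k a b m' = qP k a b m * rho k ![0, 0, 1] x := by
  ext i j
  rw [qP_apply, h, Matrix.mul_apply, Matrix.mul_apply]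
  simp only [mul_comm (m.1 i _)]
  rw [leadP.sum3 fun s =>
    (leadP.hi_r vx'_Lp s j x (1 + (b + 1)) (mem_MM.1 m.2 i s).2).1, Finset.mul_sum]
  refine Finset.sum_congr rfl fun s _ => ?_
  rw [(leadP.hi_r vx'_Lp s j x (1 + (b + 1)) (mem_MM.1 m.2 i s).2).2, lc_vx', qP_apply,
    ← mul_assoc, rho_scale_r]
  ring

end kernels

/-- the chain -/
noncomputable def UU (k : Type) [Field k] (N s : ℕ) : Submodule k (Matrix (Fin 3) (Fin 3) (Run7.h258.Han.O k)) :=
  MM k (N + (s + 1) / 2) (N + s / 2)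

/-- Step C -/
theorem STEPC [CharZero k]
    (h0 : ∀ n, Hv n (Run7.h258.Han.matAct (k := k) (vx k) (vx' k)))
    (h1 : ∀ n, Hv n (Run7.h258.Han.matAct (k := k) ![(0 : k), 0, 1] ![1, 0, 1]))
    (h2 : ∀ n, Hv n (Run7.h258.Han.matAct (k := k) ![(1 : k), 0, -1] ![0, 0, 1])) (N n : ℕ) :
    Hv n (Run7.h258.Han.mnAct k N) := by
  have hl : ∀ (s : ℕ) (a : Run7.h258.Han.A k) (x : Matrix (Fin 3) (Fin 3) (Run7.h258.Han.O k)), x ∈ UU k N s →
      (Run7.h258.Han.matAct (k := k) (vx k) (vx' k)).l a x ∈ UU k N s :=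
    fun s a x hx => MM_l _ hx
  have hr : ∀ (s : ℕ) (a : Run7.h258.Han.A k) (x : Matrix (Fin 3) (Fin 3) (Run7.h258.Han.O k)), x ∈ UU k N s →
      (Run7.h258.Han.matAct (k := k) (vx k) (vx' k)).r a x ∈ UU k N s :=
    fun s a x hx => MM_r _ hx
  have hm : ∀ s, UU k N s ≤ UU k N (s + 1) := fun s => MM_mono (by omega) (by omega)
  have key := Hv_sub_of_filtration (Run7.h258.Han.matAct (k := k) (vx k) (vx' k)) (UU k N) hl hr
    hm ?_ ?_ h0 n
  · exact key
  · intro x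
    obtain ⟨K, hK⟩ := Run7.h258.Han.exists_mem_MN x
    refine ⟨2 * K, ?_⟩
    have h3 : MM k K K ≤ UU k N (2 * K) := MM_mono (by omega) (by omega)
    exact h3 hK
  · intro s
    obtain ⟨t, ht | ht⟩ := Nat.even_or_odd' s
    · have e1 : UU k N (s + 1) = MM k (N + t + 1) (N + t) := by
        unfold UU; congr 1 <;> omega
      have e2 : UU k N s = MM k (N + t) (N + t) := by
        unfold UU; congr 1 <;> omega
      rw [e1, e2]
      exact ⟨Matrix (Fin 3) (Fin 3) k, inferInstance, inferInstance,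
        Run7.h258.Han.matAct (k := k) ![(0 : k), 0, 1] ![1, 0, 1], qI k (N + t) (N + t),
        qI_surj _ _, qI_ker _ _, fun a x y hxy => qI_l _ _ _ _ _ hxy,
        fun a x y hxy => qI_r _ _ _ _ _ hxy, h1⟩
    · have e1 : UU k N (s + 1) = MM k (N + t + 1) (N + t + 1) := by
        unfold UU; congr 1 <;> omega
      have e2 : UU k N s = MM k (N + t + 1) (N + t) := by
        unfold UU; congr 1 <;> omega
      rw [e1, e2]
      exact ⟨Matrix (Fin 3) (Fin 3) k, inferInstance, inferInstance,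
        Run7.h258.Han.matAct (k := k) ![(1 : k), 0, -1] ![0, 0, 1], qP k (N + t + 1) (N + t),
        qP_surj _ _, qP_ker _ _, fun a x y hxy => qP_l _ _ _ _ _ hxy,
        fun a x y hxy => qP_r _ _ _ _ _ hxy, h2⟩

end Run7.h975.Han
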